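import Mathlib

/-!
# Multiplicative functions with values in the convex hull of the roots of unity: definitions
-/

namespace Pool.Agent.Lib.MP_d57abb_ntR

open Finset Filter Topology MeasureTheory

/-- the primes different from `5` which divide values of `k² + 3 k + 1` -/
def Sp (p : ℕ) : Prop := p.Prime ∧ (p % 5 = 1 ∨ p % 5 = 4)

/-- the `q`-th roots of unity -/
abbrev Mu (q : ℕ) : Type := {z : ℂ // z ^ q = 1}

open Classical in
/-- the random multiplicative function: `x p` at the split primes `p`, `g` at the other prime powers -/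
noncomputable def Gr (q : ℕ) (g : ℕ → ℂ) (x : ℕ → Mu q) (n : ℕ) : ℂ :=
  ∏ p ∈ n.primeFactors, if n.factorization p = 1 ∧ Sp p then (x p : ℂ) else g (p ^ n.factorization p)

open Classical in
/-- logarithmic density zero -/
def Lz (E : Set ℕ) : Prop :=
  Tendsto (fun N : ℕ => (∑ X ∈ (Icc 1 N).filter (fun X => X ∈ E), (1 : ℝ) / X) / Real.log N) atTop (𝓝 0)

/-- logarithmic mean zero -/
def Lm (b : ℕ → ℝ) : Prop :=
  Tendsto (fun N : ℕ => (∑ X ∈ Icc 1 N, b X / X) / Real.log N) atTop (𝓝 0)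

/-- the law in windows, for weights `T` -/
def Win (T : ℝ → ℕ → ℕ) (G : ℕ → ℂ) : Prop :=
  ∀ D : ℕ, 0 < D → ∀ r : ℕ, ∀ c : ℝ, 1 < c → ∀ ε : ℝ, 0 < ε → ∃ K : ℝ, ∀ A X : ℕ, 1 ≤ A → A ≤ X →
    ‖∑ k ∈ (Ioc A X).filter (fun k => k ^ 2 + 3 * k + 1 ≡ r [MOD D]),
      ((T c k / k : ℝ) : ℂ) * G (k ^ 2 + 3 * k + 1)‖ ≤ ε * Real.log (X / A) + K

/-- the law at almost all scales, for weights `T` -/
def Sca (T : ℝ → ℕ → ℕ) (G : ℕ → ℂ) : Prop :=
  ∃ E : Set ℕ, Lz E ∧ ∀ c : ℝ, 1 < c → ∀ D : ℕ, 0 < D → ∀ r : ℕ,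
    Tendsto (fun X : ℕ => (∑ k ∈ (Icc 1 X).filter (fun k => k ^ 2 + 3 * k + 1 ≡ r [MOD D]),
      (T c k : ℂ) * G (k ^ 2 + 3 * k + 1)) / X) (atTop ⊓ 𝓟 Eᶜ) (𝓝 0)

end Pool.Agent.Lib.MP_d57abb_ntR
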