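import Pool.Agent.Lib.MP_d57abb_nt.GV.MasS
import Pool.Agent.Lib.MP_d57abb_nt.GV.Ext
import Pool.Agent.Lib.MP_d57abb_nt.GV.Card
import Pool.Agent.Lib.MP_d57abb_nt.GT.Dich
import Pool.Agent.Lib.MP_d57abb_ntR.D0

/-!
# The law for multiplicative functions whose values at the split primes are roots of unity
-/

namespace Pool.Agent.Lib.MP_d57abb_ntR

open Finset Filter Topology MeasureTheory

open Classical in
theorem bb {q : ℕ} (hq : 0 < q) {g : ℕ → ℂ} (hmul : ∀ a b : ℕ, 0 < a → 0 < b → a.Coprime b → g (a * b) = g a * g b)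
    (hle : ∀ n : ℕ, 0 < n → ‖g n‖ ≤ 1) (hroot : ∀ p : ℕ, p.Prime → (p % 5 = 1 ∨ p % 5 = 4) → g p ^ q = 1)
    (hD : ∀ W : ℕ, 0 < W → ∀ ψ : DirichletCharacter ℂ W,
      ¬ Summable (fun p : ℕ => if (p.Prime ∧ (p % 5 = 1 ∨ p % 5 = 4)) ∧ g p ≠ ψ p then 1 / (p : ℝ) else 0)) :
    Win Pool.Agent.Lib.MP_d57abb_nt.GA.TZ.tc g ∧ Sca Pool.Agent.Lib.MP_d57abb_nt.GA.TZ.tc g := by
  obtain ⟨g₁, m1, m2, m3⟩ := Pool.Agent.Lib.MP_d57abb_nt.GV.ext_mul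
    (fun p => if p % 5 = 1 ∨ p % 5 = 4 then g p else 1)
  have hg₁ : ∀ p : ℕ, p.Prime → p % 5 = 1 ∨ p % 5 = 4 → g p = g₁ p := by
    intro p hp h5
    rw [m2 p hp, if_pos h5]
  have hroot₁ : ∀ n : ℕ, 0 < n → g₁ n ^ q = 1 := m3 q fun p hp => by
    split_ifs with h5
    · exact hroot p hp h5
    · exact one_pow q
  have hnp : Pool.Agent.Lib.MP_d57abb_nt.GT.NPx g₁ := Pool.Agent.Lib.MP_d57abb_nt.GT.npx_of_dir fun W hW ψ hs =>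
    hD W hW ψ (hs.congr fun p => by
      by_cases hp : p.Prime ∧ (p % 5 = 1 ∨ p % 5 = 4)
      · rw [hg₁ p hp.1 hp.2]
      · rw [if_neg (fun h => hp h.1), if_neg (fun h => hp h.1)])
  refine ⟨fun D hD0 r c hc ε hε => ?_, ?_⟩
  · obtain ⟨K, -, hK⟩ := Pool.Agent.Lib.MP_d57abb_nt.GV.mul_win hq m1 hroot₁ hnp hmul hle hg₁ hD0 r c hc ε hε
    exact ⟨K, hK⟩
  · obtain ⟨E, hE, h2⟩ := Pool.Agent.Lib.MP_d57abb_nt.GV.mul_fin hq m1 hroot₁ hnp hmul hle hg₁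
    refine ⟨E, hE, fun c hc D hD0 r => ?_⟩
    rw [tendsto_zero_iff_norm_tendsto_zero]
    refine (h2 c hc D hD0 r).congr fun X => ?_
    rw [norm_div, Complex.norm_natCast]
    rfl

end Pool.Agent.Lib.MP_d57abb_ntR
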