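import Pool.Agent.Lib.MP_d57abb_ntR.D0

/-!
# Leaf R1: the random function is multiplicative, bounded, measurable

`Gr_mul`: for coprime `a, b` the sets `a.primeFactors`, `b.primeFactors` are disjoint with union `(a * b).primeFactors`
(`Nat.Coprime.primeFactors_mul`, `Nat.Coprime.disjoint_primeFactors`), and `(a * b).factorization p = a.factorization p` for
`p ∈ a.primeFactors` (`Nat.factorization_mul_of_coprime`; the other factorization is `0` at `p`); `Finset.prod_union`.
`Gr_le`: `‖x p‖ = 1` (`Complex.norm_eq_one_of_pow_eq_one`), `‖g (p ^ _)‖ ≤ 1`, `Finset.prod_le_one` after `norm_prod`.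
`Gr_prime`: `p.primeFactors = {p}`, `p.factorization p = 1`.
`Gr_meas`: finite product of constants and coordinate functions: `Finset.measurable_prod`, `measurable_subtype_coe.comp
(measurable_pi_apply p)`.
-/

namespace Pool.Agent.Lib.MP_d57abb_ntR

open Finset Filter Topology MeasureTheory

theorem Gr_mul {q : ℕ} (g : ℕ → ℂ) (x : ℕ → Mu q) {a b : ℕ} (ha : 0 < a) (hb : 0 < b) (hab : a.Coprime b) :
    Gr q g x (a * b) = Gr q g x a * Gr q g x b := by
  classical
  unfold Gr
  rw [hab.primeFactors_mul, Finset.prod_union hab.disjoint_primeFactors]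
  congr 1
  · refine Finset.prod_congr rfl fun p hp => ?_
    have h1 : (a * b).factorization p = a.factorization p := by
      rw [Nat.factorization_mul ha.ne' hb.ne', Finsupp.add_apply]
      have h2 : p ∉ b.primeFactors := fun h => (Finset.disjoint_left.1 hab.disjoint_primeFactors hp) h
      have h3 : b.factorization p = 0 := by
        rw [← Finsupp.notMem_support_iff, Nat.support_factorization]
        exact h2
      rw [h3, add_zero]
    rw [h1]
  · refine Finset.prod_congr rfl fun p hp => ?_
    have h1 : (a * b).factorization p = b.factorization p := by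
      rw [Nat.factorization_mul ha.ne' hb.ne', Finsupp.add_apply]
      have h2 : p ∉ a.primeFactors := fun h => (Finset.disjoint_left.1 hab.disjoint_primeFactors h) hp
      have h3 : a.factorization p = 0 := by
        rw [← Finsupp.notMem_support_iff, Nat.support_factorization]
        exact h2
      rw [h3, zero_add]
    rw [h1]

theorem Gr_le {q : ℕ} (hq : 0 < q) {g : ℕ → ℂ} (hle : ∀ n : ℕ, 0 < n → ‖g n‖ ≤ 1) (x : ℕ → Mu q) (n : ℕ) :
    ‖Gr q g x n‖ ≤ 1 := by
  classical
  unfold Gr
  rw [norm_prod]
  refine Finset.prod_le_one (fun p _ => norm_nonneg _) fun p hp => ?_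
  split_ifs
  · exact (Complex.norm_eq_one_of_pow_eq_one (x p).2 hq.ne').le
  · exact hle _ (Nat.pow_pos (Nat.prime_of_mem_primeFactors hp).pos)

theorem Gr_prime {q : ℕ} (g : ℕ → ℂ) (x : ℕ → Mu q) {p : ℕ} (hp : Sp p) : Gr q g x p = x p := by
  classical
  unfold Gr
  rw [hp.1.primeFactors, Finset.prod_singleton, hp.1.factorization_self, if_pos ⟨rfl, hp⟩]

theorem Gr_meas (q : ℕ) (g : ℕ → ℂ) (n : ℕ) : Measurable (fun x : ℕ → Mu q => Gr q g x n) := by
  classical
  unfold Gr
  refine Finset.measurable_prod _ fun p _ => ?_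
  by_cases h : n.factorization p = 1 ∧ Sp p
  · simp only [if_pos h]
    exact measurable_subtype_coe.comp (measurable_pi_apply p)
  · simp only [if_neg h]
    exact measurable_const

end Pool.Agent.Lib.MP_d57abb_ntR
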