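import Pool.Agent.Lib.MP_d57abb_ntR.D0
import Pool.Agent.Lib.MP_d57abb_nt.GT.Defs
import Pool.Agent.Lib.MP_d57abb_nt.GA.TS.Geo

/-!
# Leaf R10: the trivial bound in windows

`@Pool.Agent.Lib.MP_d57abb_nt.GA.TS.mass_le Pool.Agent.Lib.MP_d57abb_nt.GT.lab0 c hc N : ∑ k ∈ Icc 1 N, (tc c k : ℝ) ≤ 3 * c * N`
(the label plays no role). `mass_le'` is this. `win_mass` with `C = 3 * c`, by summation by parts: let `s N = ∑ k ∈ Icc 1 N, tc c k`.
By induction on `X ≥ A` (`Nat.le_induction`):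
`∑ k ∈ Ioc A X, tc c k / k = s X / X - s A / A + ∑ k ∈ Ico A X, s k * (1 / k - 1 / (k + 1))`
`≤ 3 * c + ∑ k ∈ Ico A X, 3 * c / (k + 1)` and `∑ k ∈ Ico A X, 1 / (k + 1) ≤ log (X / A)` (induction,
`1 / (k + 1) ≤ log ((k + 1) / k)`, from `Real.one_sub_inv_le_log_of_pos`).
-/

namespace Pool.Agent.Lib.MP_d57abb_ntR

open Finset Filter Topology MeasureTheory

theorem mass_le' (c : ℝ) (hc : 1 ≤ c) (N : ℕ) :
    ∑ k ∈ Icc 1 N, (Pool.Agent.Lib.MP_d57abb_nt.GA.TZ.tc c k : ℝ) ≤ 3 * c * N := by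
  exact @Pool.Agent.Lib.MP_d57abb_nt.GA.TS.mass_le Pool.Agent.Lib.MP_d57abb_nt.GT.lab0 c hc N

private theorem R10_parts (t : ℕ → ℝ) (C : ℝ) (hC : 0 ≤ C) (hm : ∀ N : ℕ, ∑ k ∈ Icc 1 N, t k ≤ C * N)
    (A X : ℕ) (hA : 1 ≤ A) (hAX : A ≤ X) :
    ∑ k ∈ Ioc A X, t k / k ≤ (∑ k ∈ Icc 1 X, t k) / X - (∑ k ∈ Icc 1 A, t k) / A + C * Real.log ((X : ℝ) / A) := by
  have hA0 : (0 : ℝ) < A := by exact_mod_cast hA
  induction X, hAX using Nat.le_induction with
  | base => rw [Finset.Ioc_self, Finset.sum_empty, sub_self, div_self hA0.ne', Real.log_one, mul_zero, add_zero]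
  | succ X hX ih =>
    have hX1 : 1 ≤ X := hA.trans hX
    have hX0 : (0 : ℝ) < X := by exact_mod_cast hX1
    have hX2 : (0 : ℝ) < (X : ℝ) + 1 := by positivity
    rw [← Finset.insert_Ioc_right_eq_Ioc_add_one (by omega : A ≤ X), Finset.sum_insert (by simp),
      ← Finset.insert_Icc_right_eq_Icc_add_one (by omega : 1 ≤ X + 1), Finset.sum_insert (by simp)]
    have hm1 := hm X
    set s := ∑ k ∈ Icc 1 X, t k with hs
    push_cast
    have h1 : s / X - s / (X + 1) ≤ C / (X + 1) := by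
      have e1 : s / X - s / (X + 1) = s / (X * (X + 1)) := by
        field_simp
        ring
      have e2 : C / ((X : ℝ) + 1) = C * X / (X * (X + 1)) := by
        field_simp
      rw [e1, e2]
      exact div_le_div_of_nonneg_right hm1 (by positivity)
    have h2 : C / ((X : ℝ) + 1) ≤ C * (Real.log (((X : ℝ) + 1) / A) - Real.log ((X : ℝ) / A)) := by
      have h3 := Real.one_sub_inv_le_log_of_pos (x := ((X : ℝ) + 1) / X) (by positivity)
      have e3 : Real.log (((X : ℝ) + 1) / A) - Real.log ((X : ℝ) / A) = Real.log (((X : ℝ) + 1) / X) := by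
        rw [← Real.log_div (by positivity) (by positivity)]
        congr 1
        field_simp
      have e4 : 1 - (((X : ℝ) + 1) / X)⁻¹ = 1 / (X + 1) := by
        field_simp
        ring
      rw [e3, div_eq_mul_one_div]
      rw [e4] at h3
      exact mul_le_mul_of_nonneg_left h3 hC
    have h4 : (t (X + 1) + s) / ((X : ℝ) + 1) = t (X + 1) / (X + 1) + s / (X + 1) := add_div _ _ _
    rw [h4]
    linarith

theorem win_mass (c : ℝ) (hc : 1 ≤ c) (A X : ℕ) (hA : 1 ≤ A) (hAX : A ≤ X) :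
    ∑ k ∈ Ioc A X, (Pool.Agent.Lib.MP_d57abb_nt.GA.TZ.tc c k : ℝ) / k ≤ 3 * c * (Real.log ((X : ℝ) / A) + 1) := by
  have hC : (0 : ℝ) ≤ 3 * c := by linarith
  have h1 := R10_parts (fun k => (Pool.Agent.Lib.MP_d57abb_nt.GA.TZ.tc c k : ℝ)) (3 * c) hC
    (fun N => mass_le' c hc N) A X hA hAX
  have hX0 : (0 : ℝ) < X := by exact_mod_cast (hA.trans hAX)
  have h2 : (∑ k ∈ Icc 1 X, (Pool.Agent.Lib.MP_d57abb_nt.GA.TZ.tc c k : ℝ)) / X ≤ 3 * c := by
    rw [div_le_iff₀ hX0]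
    exact mass_le' c hc X
  have h3 : 0 ≤ (∑ k ∈ Icc 1 A, (Pool.Agent.Lib.MP_d57abb_nt.GA.TZ.tc c k : ℝ)) / A := by positivity
  calc _ ≤ _ := h1
    _ ≤ 3 * c * (Real.log ((X : ℝ) / A) + 1) := by
      rw [mul_add, mul_one]
      linarith

end Pool.Agent.Lib.MP_d57abb_ntR
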