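import Pool.Agent.Lib.MP_d57abb_ntR.D0

/-!
# Leaf R4: Chebyshev

Let `a p x = if Sp p ∧ x p ≠ ψ p then 1 / p else 0`, a bounded measurable function of the single coordinate `x p`, with values in
`[0, 1 / p]`. For every `z` with `z ^ q = 1` (so `‖z‖ = 1`): `1 - (z * conj (ψ p)).re ≤ 2 * (if z ≠ ψ p then 1 else 0)` (if
`z = ψ p` the left side is `1 - ‖z‖² = 0`; else it is at most `1 + ‖ψ p‖ ≤ 2`). Integrate over `μ p`: for `Sp p`,
`m p := ∫ a p ≥ (1 / 2) * (1 - ((∫ z) * conj (ψ p)).re) / p`. So `m` is nonnegative and not summable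
(`Summable.of_nonneg_of_le`; the terms in `hns` are nonnegative since `‖∫ z‖ ≤ 1`, `‖ψ p‖ ≤ 1`), hence
`∑ p ∈ range N, m p → ∞` (`not_summable_iff_tendsto_nat_atTop_of_nonneg`).
The functions `a p` are independent under `Measure.infinitePi μ` (`ProbabilityTheory.iIndepFun_infinitePi` with the measurable
functions of one coordinate), with variance at most `1 / p ^ 2`; so the variance of `S N = ∑ p ∈ range N, a p` is at most
`∑ 1 / p ^ 2 ≤ 2` (`IndepFun.variance_sum`, `variance_le_expectation_sq`, `Summable`; any bound `V` is fine).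
For `M : ℕ` let `B M = {x | ∀ N, S N x ≤ M}`. For every `N` with `E (S N) > M`:
`P (B M) ≤ P (S N ≤ M) ≤ P (|S N - E (S N)| ≥ E (S N) - M) ≤ V / (E (S N) - M) ^ 2` (`ProbabilityTheory.meas_ge_le_variance_div_sq`),
and the right side tends to `0`; so `P (B M) = 0` for all `M`. If the series in the conclusion is summable at `x`, then
`x ∈ B ⌈tsum⌉` (`Summable.sum_le_tsum`). `ae_all_iff`, `measure_iUnion_null`.
-/

namespace Pool.Agent.Lib.MP_d57abb_ntR

open Finset Filter Topology MeasureTheory

/-- independent bounded functions whose means have a divergent sum -/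
private theorem R4_bc {Ω : Type*} [MeasurableSpace Ω] {P : Measure Ω} [IsProbabilityMeasure P] {X : ℕ → Ω → ℝ}
    (hm : ∀ p, Measurable (X p)) (hind : ProbabilityTheory.iIndepFun X P) (b : ℕ → ℝ) (h0 : ∀ p ω, 0 ≤ X p ω)
    (hb : ∀ p ω, X p ω ≤ b p) (hs : Summable fun p => b p ^ 2) (hE : ¬ Summable fun p => ∫ ω, X p ω ∂P) :
    ∀ᵐ ω ∂P, ¬ Summable fun p => X p ω := by
  have hL : ∀ p, MemLp (X p) 2 P := fun p => MemLp.of_bound (hm p).aestronglyMeasurable (b p)
    (Filter.Eventually.of_forall fun ω => by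
      rw [Real.norm_eq_abs, abs_of_nonneg (h0 p ω)]
      exact hb p ω)
  have hI : ∀ p, Integrable (X p) P := fun p => (hL p).integrable (by norm_num)
  obtain ⟨V, hV⟩ : ∃ V : ℝ, V = ∑' p, b p ^ 2 := ⟨_, rfl⟩
  obtain ⟨E, hEd⟩ : ∃ E : ℕ → ℝ, E = fun N => ∑ p ∈ range N, ∫ ω, X p ω ∂P := ⟨_, rfl⟩
  have hEt : Tendsto E atTop atTop := by
    rw [hEd]
    exact (not_summable_iff_tendsto_nat_atTop_of_nonneg fun p => integral_nonneg fun ω => h0 p ω).1 hE
  have hvar : ∀ p, ProbabilityTheory.variance (X p) P ≤ b p ^ 2 := by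
    intro p
    refine (ProbabilityTheory.variance_le_expectation_sq (hm p).aestronglyMeasurable).trans ?_
    have h1 : (∫ ω, (X p ^ 2) ω ∂P) ≤ ∫ _ω, b p ^ 2 ∂P := by
      refine integral_mono_of_nonneg (Filter.Eventually.of_forall fun ω => ?_) (integrable_const _)
        (Filter.Eventually.of_forall fun ω => ?_)
      · exact sq_nonneg (X p ω)
      · exact pow_le_pow_left₀ (h0 p ω) (hb p ω) 2
    refine h1.trans (le_of_eq ?_)
    rw [integral_const, probReal_univ, one_smul]
  have hS : ∀ N, MemLp (∑ p ∈ range N, X p) 2 P := fun N => memLp_finsetSum' _ fun p _ => hL p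
  have hvS : ∀ N, ProbabilityTheory.variance (∑ p ∈ range N, X p) P ≤ V := by
    intro N
    rw [ProbabilityTheory.IndepFun.variance_sum (fun p _ => hL p) fun i _ j _ hij => hind.indepFun hij, hV]
    exact (Finset.sum_le_sum fun p _ => hvar p).trans (hs.sum_le_tsum _ fun p _ => sq_nonneg _)
  have hES : ∀ N, (∫ ω, (∑ p ∈ range N, X p) ω ∂P) = E N := by
    intro N
    rw [hEd]
    simp only [Finset.sum_apply]
    exact integral_finsetSum _ fun p _ => hI p
  have hB : ∀ M : ℕ, P {ω | ∀ N, ∑ p ∈ range N, X p ω ≤ M} = 0 := by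
    intro M
    have h1 : Tendsto (fun N => ENNReal.ofReal (V / (E N - M) ^ 2)) atTop (𝓝 0) := by
      have h2 : Tendsto (fun N => (E N - M) ^ 2) atTop atTop :=
        (tendsto_pow_atTop two_ne_zero).comp (tendsto_atTop_add_const_right _ _ hEt)
      have h3 : Tendsto (fun N => V / (E N - M) ^ 2) atTop (𝓝 0) := tendsto_const_nhds.div_atTop h2
      have h4 := ENNReal.tendsto_ofReal h3
      rwa [ENNReal.ofReal_zero] at h4
    refine le_antisymm (ge_of_tendsto h1 ?_) (zero_le)
    filter_upwards [hEt.eventually_gt_atTop (M : ℝ)] with N hN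
    have h2 : 0 < E N - M := by linarith
    have h3 := ProbabilityTheory.meas_ge_le_variance_div_sq (hS N) h2
    refine (measure_mono fun ω hω => ?_).trans (h3.trans (ENNReal.ofReal_le_ofReal ?_))
    · have h4 : ∑ p ∈ range N, X p ω ≤ M := hω N
      have h5 : (∑ p ∈ range N, X p) ω ≤ M := by
        rw [Finset.sum_apply]
        exact h4
      show E N - M ≤ |(∑ p ∈ range N, X p) ω - ∫ ω, (∑ p ∈ range N, X p) ω ∂P|
      rw [hES N, abs_sub_comm]
      exact le_trans (by linarith) (le_abs_self _)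
    · exact div_le_div_of_nonneg_right (hvS N) (sq_nonneg _)
  rw [ae_iff]
  refine measure_mono_null (fun ω hω => ?_) (measure_iUnion_null hB)
  have h1 : Summable fun p => X p ω := by
    by_contra h
    exact hω h
  obtain ⟨M, hM⟩ := exists_nat_ge (∑' p, X p ω)
  rw [Set.mem_iUnion]
  exact ⟨M, fun N => (h1.sum_le_tsum _ fun p _ => h0 p ω).trans hM⟩

open Classical in
theorem div_ae {q : ℕ} (hq : 0 < q) (μ : ℕ → Measure (Mu q)) [∀ p, IsProbabilityMeasure (μ p)] (ψ : ℕ → ℂ)
    (hψ : ∀ p, ‖ψ p‖ ≤ 1)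
    (hns : ¬ Summable (fun p : ℕ => if Sp p then
      (1 - ((∫ z, (z : ℂ) ∂(μ p)) * (starRingEnd ℂ) (ψ p)).re) / (p : ℝ) else 0)) :
    ∀ᵐ x ∂(Measure.infinitePi μ), ¬ Summable (fun p : ℕ => if Sp p ∧ ((x p : Mu q) : ℂ) ≠ ψ p then 1 / (p : ℝ) else 0) := by
  obtain ⟨h, hh⟩ : ∃ h : ℕ → Mu q → ℝ, h = fun p z => if Sp p ∧ ((z : Mu q) : ℂ) ≠ ψ p then 1 / (p : ℝ) else 0 := ⟨_, rfl⟩
  have hnorm : ∀ z : Mu q, ‖(z : ℂ)‖ = 1 := fun z => Complex.norm_eq_one_of_pow_eq_one z.2 hq.ne'
  have hmeas : ∀ p, Measurable (h p) := by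
    intro p
    rw [hh]
    by_cases hp : Sp p
    · simp only [hp, true_and]
      refine Measurable.ite ?_ measurable_const measurable_const
      exact (measurable_subtype_coe (measurableSet_singleton (ψ p))).compl
    · simp only [hp, false_and, if_false]
      exact measurable_const
  have h0 : ∀ p z, 0 ≤ h p z := by
    intro p z
    rw [hh]
    show (0 : ℝ) ≤ if _ then _ else _
    split_ifs
    · positivity
    · exact le_rfl
  have hb : ∀ p z, h p z ≤ 1 / (p : ℝ) := by
    intro p z
    rw [hh]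
    show (if _ then _ else _ : ℝ) ≤ _
    split_ifs
    · exact le_rfl
    · positivity
  have hind := ProbabilityTheory.iIndepFun_infinitePi (P := μ) (X := h) hmeas
  have hint : ∀ p, ∫ x, h p (x p) ∂(Measure.infinitePi μ) = ∫ z, h p z ∂(μ p) := by
    intro p
    rw [← Measure.infinitePi_map_eval μ p]
    rw [integral_map (measurable_pi_apply p).aemeasurable (hmeas p).aestronglyMeasurable]
  have hE : ¬ Summable fun p => ∫ x, h p (x p) ∂(Measure.infinitePi μ) := by
    intro hsum
    apply hns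
    simp only [hint] at hsum
    have hzI : ∀ p, Integrable (fun z : Mu q => (z : ℂ)) (μ p) := fun p =>
      Integrable.of_bound measurable_subtype_coe.aestronglyMeasurable 1
        (Filter.Eventually.of_forall fun z => (hnorm z).le)
    have hz1 : ∀ p, ‖∫ z, (z : ℂ) ∂(μ p)‖ ≤ 1 := by
      intro p
      have h1 := norm_integral_le_of_norm_le_const (μ := μ p) (f := fun z : Mu q => (z : ℂ)) (C := 1)
        (Filter.Eventually.of_forall fun z => (hnorm z).le)
      rwa [probReal_univ, mul_one] at h1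
    refine Summable.of_nonneg_of_le (fun p => ?_) (fun p => ?_) (hsum.mul_left 2)
    · split_ifs with hp
      · refine div_nonneg (sub_nonneg.2 ?_) (Nat.cast_nonneg p)
        refine (Complex.re_le_norm _).trans ?_
        rw [norm_mul, RCLike.norm_conj]
        exact mul_le_one₀ (hz1 p) (norm_nonneg _) (hψ p)
      · exact le_rfl
    · by_cases hp : Sp p
      · rw [if_pos hp]
        have hp0 : (0 : ℝ) < p := by exact_mod_cast hp.1.pos
        have hI2 : Integrable (fun z : Mu q => (z : ℂ) * (starRingEnd ℂ) (ψ p)) (μ p) := (hzI p).mul_const _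
        have h1 : ((∫ z, (z : ℂ) ∂(μ p)) * (starRingEnd ℂ) (ψ p)).re =
            ∫ z : Mu q, ((z : ℂ) * (starRingEnd ℂ) (ψ p)).re ∂(μ p) := by
          rw [← integral_mul_const]
          exact (Complex.reCLM.integral_comp_comm hI2).symm
        have hI3 : Integrable (fun z : Mu q => ((z : ℂ) * (starRingEnd ℂ) (ψ p)).re) (μ p) := hI2.re
        have h2 : (1 - ((∫ z, (z : ℂ) ∂(μ p)) * (starRingEnd ℂ) (ψ p)).re) / (p : ℝ) =
            ∫ z : Mu q, (1 - ((z : ℂ) * (starRingEnd ℂ) (ψ p)).re) / (p : ℝ) ∂(μ p) := by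
          rw [integral_div, integral_sub (integrable_const _) hI3, integral_const, probReal_univ, one_smul, h1]
        rw [h2, ← integral_const_mul]
        refine integral_mono (((integrable_const _).sub hI3).div_const _) ?_ fun z => ?_
        · exact (Integrable.of_bound (hmeas p).aestronglyMeasurable (1 / (p : ℝ))
            (Filter.Eventually.of_forall fun z => by
              rw [Real.norm_eq_abs, abs_of_nonneg (h0 p z)]
              exact hb p z)).const_mul 2
        · show (1 - ((z : ℂ) * (starRingEnd ℂ) (ψ p)).re) / (p : ℝ) ≤ 2 * h p z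
          rw [hh]
          show (1 - ((z : ℂ) * (starRingEnd ℂ) (ψ p)).re) / (p : ℝ) ≤
            2 * (if Sp p ∧ (z : ℂ) ≠ ψ p then 1 / (p : ℝ) else 0)
          by_cases hz : (z : ℂ) = ψ p
          · rw [if_neg fun h => h.2 hz, ← hz, Complex.mul_conj, Complex.normSq_eq_norm_sq, hnorm z]
            norm_num
          · rw [if_pos ⟨hp, hz⟩]
            have h3 : -((z : ℂ) * (starRingEnd ℂ) (ψ p)).re ≤ 1 := by
              have h4 := Complex.abs_re_le_norm ((z : ℂ) * (starRingEnd ℂ) (ψ p))
              rw [norm_mul, RCLike.norm_conj, hnorm z, one_mul] at h4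
              exact (neg_le_abs _).trans (h4.trans (hψ p))
            rw [div_le_iff₀ hp0]
            have h4 : 2 * (1 / (p : ℝ)) * p = 2 := by
              field_simp
            rw [h4]
            linarith
      · rw [if_neg hp]
        exact mul_nonneg zero_le_two (integral_nonneg fun z => h0 p z)
  have hs : Summable fun p : ℕ => (1 / (p : ℝ)) ^ 2 := by
    have h1 := Real.summable_one_div_nat_pow.2 (by norm_num : 1 < 2)
    refine h1.congr fun p => ?_
    rw [one_div, one_div, inv_pow]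
  have hfin := R4_bc (P := Measure.infinitePi μ) (X := fun p x => h p (x p))
    (fun p => (hmeas p).comp (measurable_pi_apply p)) hind (fun p => 1 / (p : ℝ)) (fun p x => h0 p _) (fun p x => hb p _)
    hs hE
  filter_upwards [hfin] with x hx
  rw [hh] at hx
  exact hx

end Pool.Agent.Lib.MP_d57abb_ntR
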