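import Pool.Agent.Lib.MP_d57abb_ntR.R1
import Pool.Agent.Lib.MP_d57abb_ntR.R4

/-!
# Leaf R11: almost every random function does not pretend to be a character

`W = 0` is excluded, so for every `W > 0` (`NeZero W`) the type `DirichletCharacter ℂ W` is finite (or countable: it embeds into
the functions on the finite type `(ZMod W)ˣ` with values in the finite set of roots of unity; Mathlib has
`Finite`/`Fintype` instances for `MulChar` over a domain, e.g. `MulChar.finite`). Use `ae_all_iff` for `W`, then for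
`0 < W` (`ae_all_iff` over the countable proposition type, or `by_cases`), then for `ψ`.
For fixed `W, ψ` apply `div_ae` (leaf R4) to the function `p ↦ ψ (p : ZMod W)` (`‖ψ a‖ ≤ 1`: `DirichletCharacter.norm_le_one` or
`MulChar`), whose hypothesis is `hD W hW ψ` rewritten with `hμ p : ∫ z, z ∂(μ p) = g p` for `Sp p`. At every `x` the two families are
equal term by term: for `Sp p`, `Gr q g x p = x p` (`Gr_prime`).
-/

namespace Pool.Agent.Lib.MP_d57abb_ntR

open Finset Filter Topology MeasureTheory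

open Classical in
theorem np_ae {q : ℕ} (hq : 0 < q) {g : ℕ → ℂ} (μ : ℕ → Measure (Mu q)) [∀ p, IsProbabilityMeasure (μ p)]
    (hμ : ∀ p : ℕ, Sp p → ∫ z, (z : ℂ) ∂(μ p) = g p)
    (hD : ∀ W : ℕ, 0 < W → ∀ ψ : DirichletCharacter ℂ W,
      ¬ Summable (fun p : ℕ => if p.Prime ∧ (p % 5 = 1 ∨ p % 5 = 4) then
        (1 - (g p * (starRingEnd ℂ) (ψ p)).re) / (p : ℝ) else 0)) :
    ∀ᵐ x ∂(Measure.infinitePi μ), ∀ W : ℕ, 0 < W → ∀ ψ : DirichletCharacter ℂ W,
      ¬ Summable (fun p : ℕ => if (p.Prime ∧ (p % 5 = 1 ∨ p % 5 = 4)) ∧ Gr q g x p ≠ ψ p then 1 / (p : ℝ) else 0) := by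
  rw [ae_all_iff]
  intro W
  by_cases hW : 0 < W
  · haveI : NeZero W := ⟨hW.ne'⟩
    have key : ∀ᵐ x ∂(Measure.infinitePi μ), ∀ ψ : DirichletCharacter ℂ W,
        ¬ Summable (fun p : ℕ => if (p.Prime ∧ (p % 5 = 1 ∨ p % 5 = 4)) ∧ Gr q g x p ≠ ψ p then 1 / (p : ℝ) else 0) := by
      rw [ae_all_iff]
      intro ψ
      have hns : ¬ Summable (fun p : ℕ => if Sp p then
          (1 - ((∫ z, (z : ℂ) ∂(μ p)) * (starRingEnd ℂ) (ψ p)).re) / (p : ℝ) else 0) := by
        intro h
        refine hD W hW ψ (h.congr fun p => ?_)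
        by_cases hp : Sp p
        · rw [if_pos hp, if_pos (show p.Prime ∧ (p % 5 = 1 ∨ p % 5 = 4) from hp), hμ p hp]
        · rw [if_neg hp, if_neg (show ¬ (p.Prime ∧ (p % 5 = 1 ∨ p % 5 = 4)) from hp)]
      have h1 := div_ae hq μ (fun p => ψ p) (fun p => DirichletCharacter.norm_le_one ψ _) hns
      filter_upwards [h1] with x hx h
      refine hx (h.congr fun p => ?_)
      by_cases hp : Sp p
      · have e : Gr q g x p = x p := Gr_prime g x hp
        by_cases h2 : ((x p : Mu q) : ℂ) ≠ ψ p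
        · have h3 : Gr q g x p ≠ ψ p := by rw [e]; exact h2
          rw [if_pos ⟨hp, h3⟩, if_pos ⟨hp, h2⟩]
        · have h3 : ¬ Gr q g x p ≠ ψ p := by rw [e]; exact h2
          rw [if_neg fun h => h3 h.2, if_neg fun h => h2 h.2]
      · rw [if_neg fun h => hp h.1, if_neg fun h => hp h.1]
    filter_upwards [key] with x hx _ using hx
  · exact Filter.Eventually.of_forall fun x h => absurd h hW

end Pool.Agent.Lib.MP_d57abb_ntR
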