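import Pool.Agent.Lib.MP_d57abb_ntR.D0

/-!
# Leaf R5: windows, from almost all `ω` to the mean

We may assume `0 ≤ C` (replace `C` by `max C 0`, using `0 ≤ L i`). Fix `ε > 0`. For `n : ℕ` let
`B n = {ω | ∀ i, ‖S i ω‖ ≤ ε / 2 * L i + n}`, measurable (`MeasurableSet.iInter`, `ι` countable), increasing in `n`, and by `h`
almost every `ω` lies in some `B n`. So `P (B n)ᶜ → 0` (`tendsto_measure_iInter_atTop` for the decreasing sets `(B n)ᶜ`, whose
intersection is a null set). Choose `n` with `C * (P (B n)ᶜ).toReal ≤ ε / 2`. Then for every `i`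
`‖∫ S i‖ ≤ ∫ ‖S i‖ = ∫ over B n + ∫ over (B n)ᶜ ≤ (ε / 2 * L i + n) + C * (L i + 1) * (P (B n)ᶜ).toReal
  ≤ ε / 2 * L i + n + ε / 2 * (L i + 1)`, so `K = n + ε / 2`. (`integral_add_compl`, `setIntegral_mono_on`,
`norm_integral_le_integral_norm`; `S i` is bounded and measurable, so integrable. Or: pointwise
`‖S i ω‖ ≤ ε / 2 * L i + n + indicator (B n)ᶜ (C * (L i + 1))` and integrate.)
-/

namespace Pool.Agent.Lib.MP_d57abb_ntR

open Finset Filter Topology MeasureTheory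

theorem win_int {Ω ι : Type*} [MeasurableSpace Ω] [Countable ι] (P : Measure Ω) [IsProbabilityMeasure P]
    (S : ι → Ω → ℂ) (L : ι → ℝ) (hL : ∀ i, 0 ≤ L i) (hm : ∀ i, Measurable (S i)) (C : ℝ)
    (hC : ∀ i ω, ‖S i ω‖ ≤ C * (L i + 1))
    (h : ∀ᵐ ω ∂P, ∀ ε : ℝ, 0 < ε → ∃ K : ℝ, ∀ i, ‖S i ω‖ ≤ ε * L i + K) :
    ∀ ε : ℝ, 0 < ε → ∃ K : ℝ, ∀ i, ‖∫ ω, S i ω ∂P‖ ≤ ε * L i + K := by
  intro ε hε
  have hC' : ∀ i ω, ‖S i ω‖ ≤ max C 0 * (L i + 1) := fun i ω =>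
    (hC i ω).trans (mul_le_mul_of_nonneg_right (le_max_left _ _) (by linarith [hL i]))
  have hC0 : (0 : ℝ) ≤ max C 0 := le_max_right _ _
  set C' : ℝ := max C 0 with hC'def
  have hBm : ∀ n : ℕ, MeasurableSet {ω | ∀ i, ‖S i ω‖ ≤ ε / 2 * L i + (n : ℝ)} := by
    intro n
    have : {ω | ∀ i, ‖S i ω‖ ≤ ε / 2 * L i + (n : ℝ)} = ⋂ i, {ω | ‖S i ω‖ ≤ ε / 2 * L i + (n : ℝ)} := by
      ext ω; simp
    rw [this]
    exact MeasurableSet.iInter fun i => measurableSet_le (hm i).norm measurable_const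
  have hanti : Antitone fun n : ℕ => {ω | ∀ i, ‖S i ω‖ ≤ ε / 2 * L i + (n : ℝ)}ᶜ := by
    intro m n hmn
    refine Set.compl_subset_compl.2 fun ω hω i => (hω i).trans ?_
    have : (m : ℝ) ≤ (n : ℝ) := by exact_mod_cast hmn
    linarith
  have hnull : P (⋂ n : ℕ, {ω | ∀ i, ‖S i ω‖ ≤ ε / 2 * L i + (n : ℝ)}ᶜ) = 0 := by
    refine measure_mono_null ?_ h
    intro ω hω
    show ¬ (∀ ε : ℝ, 0 < ε → ∃ K : ℝ, ∀ i, ‖S i ω‖ ≤ ε * L i + K)
    intro hcon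
    obtain ⟨K, hK⟩ := hcon (ε / 2) (by positivity)
    obtain ⟨n, hn⟩ := exists_nat_ge K
    exact (Set.mem_iInter.1 hω n) fun i => (hK i).trans (by linarith)
  have ht : Tendsto (fun n : ℕ => P {ω | ∀ i, ‖S i ω‖ ≤ ε / 2 * L i + (n : ℝ)}ᶜ) atTop (𝓝 0) := by
    have := tendsto_measure_iInter_atTop (μ := P) (fun n => (hBm n).compl.nullMeasurableSet) hanti
      ⟨0, measure_ne_top _ _⟩
    rwa [hnull] at this
  have ht' : Tendsto (fun n : ℕ => C' * (P {ω | ∀ i, ‖S i ω‖ ≤ ε / 2 * L i + (n : ℝ)}ᶜ).toReal) atTop (𝓝 0) := by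
    have h1 := (ENNReal.tendsto_toReal ENNReal.zero_ne_top).comp ht
    have h2 := h1.const_mul C'
    simpa using h2
  obtain ⟨n, hn⟩ := (ht'.eventually (Iic_mem_nhds (show (0 : ℝ) < ε / 2 by positivity))).exists
  refine ⟨n + ε / 2, fun i => ?_⟩
  set A : Set Ω := {ω | ∀ i, ‖S i ω‖ ≤ ε / 2 * L i + (n : ℝ)}ᶜ with hA
  have hAm : MeasurableSet A := (hBm n).compl
  have hi1 : Integrable (fun _ : Ω => ε / 2 * L i + (n : ℝ)) P := integrable_const _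
  have hi2 : Integrable (A.indicator fun _ : Ω => C' * (L i + 1)) P := (integrable_const _).indicator hAm
  have hpt : ∀ ω, ‖S i ω‖ ≤ (ε / 2 * L i + (n : ℝ)) + A.indicator (fun _ => C' * (L i + 1)) ω := by
    intro ω
    by_cases hω : ω ∈ A
    · rw [Set.indicator_of_mem hω]
      have h1 : 0 ≤ ε / 2 * L i := mul_nonneg (by positivity) (hL i)
      have h2 : (0 : ℝ) ≤ (n : ℝ) := Nat.cast_nonneg n
      linarith [hC' i ω]
    · rw [Set.indicator_of_notMem hω, add_zero]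
      have h1 : ω ∈ {ω | ∀ i, ‖S i ω‖ ≤ ε / 2 * L i + (n : ℝ)} := by
        by_contra hcon
        exact hω hcon
      exact h1 i
  have hle : ‖∫ ω, S i ω ∂P‖ ≤ ∫ ω, ((ε / 2 * L i + (n : ℝ)) + A.indicator (fun _ => C' * (L i + 1)) ω) ∂P :=
    norm_integral_le_of_norm_le (hi1.add hi2) (Eventually.of_forall hpt)
  have hint : ∫ ω, ((ε / 2 * L i + (n : ℝ)) + A.indicator (fun _ => C' * (L i + 1)) ω) ∂P =
      (ε / 2 * L i + (n : ℝ)) + (P A).toReal * (C' * (L i + 1)) := by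
    rw [integral_add hi1 hi2, integral_indicator hAm]
    simp [Measure.real]
  rw [hint] at hle
  have hn' : C' * (P A).toReal ≤ ε / 2 := hn
  have hL1 : 0 ≤ L i + 1 := by linarith [hL i]
  have h3 : (P A).toReal * (C' * (L i + 1)) ≤ ε / 2 * (L i + 1) := by
    calc (P A).toReal * (C' * (L i + 1)) = C' * (P A).toReal * (L i + 1) := by ring
      _ ≤ ε / 2 * (L i + 1) := mul_le_mul_of_nonneg_right hn' hL1
  linarith

end Pool.Agent.Lib.MP_d57abb_ntR
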