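import Pool.Agent.Lib.MP_d57abb_ntR.R2
import Pool.Agent.Lib.MP_d57abb_ntR.R5
import Pool.Agent.Lib.MP_d57abb_ntR.R10

/-!
# Leaf R12: the windows

Fix `D, r, c` and apply `win_int` (leaf R5) with `P = Measure.infinitePi μ`, the index type
`ι = {i : ℕ × ℕ // 1 ≤ i.1 ∧ i.1 ≤ i.2}` (`i = (A, X)`),
`S i x = ∑ k ∈ (Ioc A X).filter (fun k => k ^ 2 + 3 * k + 1 ≡ r [MOD D]), ((tc c k / k : ℝ) : ℂ) * Gr q g x (k ^ 2 + 3 * k + 1)`,
`L i = Real.log (X / A) ≥ 0`, `C = 3 * c`. Measurable: `Gr_meas`, finite sum. Bound: `norm_sum_le`, `Gr_le`, the filtered sum is at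
most the full sum, `win_mass`. The hypothesis for almost every `x` is `hx` at `D, r, c`. The integral of `S i` is
`∑ ... ((tc c k / k : ℝ) : ℂ) * g (k ^ 2 + 3 * k + 1)` (`integral_finset_sum`, `integral_const_mul`, `Gr_int`; integrable since
measurable and bounded on a probability space).
-/

namespace Pool.Agent.Lib.MP_d57abb_ntR

open Finset Filter Topology MeasureTheory

private theorem R12_int {q : ℕ} (hq : 0 < q) {g : ℕ → ℂ} (hle : ∀ n : ℕ, 0 < n → ‖g n‖ ≤ 1)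
    (μ : ℕ → Measure (Mu q)) [∀ p, IsProbabilityMeasure (μ p)] (n : ℕ) :
    Integrable (fun x : ℕ → Mu q => Gr q g x n) (Measure.infinitePi μ) :=
  Integrable.of_bound (Gr_meas q g n).aestronglyMeasurable 1 (Eventually.of_forall fun x => Gr_le hq hle x n)

private theorem R12_mean {q : ℕ} (hq : 0 < q) {g : ℕ → ℂ} (h1 : g 1 = 1)
    (hmul : ∀ a b : ℕ, 0 < a → 0 < b → a.Coprime b → g (a * b) = g a * g b) (hle : ∀ n : ℕ, 0 < n → ‖g n‖ ≤ 1)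
    (μ : ℕ → Measure (Mu q)) [∀ p, IsProbabilityMeasure (μ p)] (hμ : ∀ p : ℕ, Sp p → ∫ z, (z : ℂ) ∂(μ p) = g p)
    (s : Finset ℕ) (w : ℕ → ℂ) :
    ∫ x, ∑ k ∈ s, w k * Gr q g x (k ^ 2 + 3 * k + 1) ∂(Measure.infinitePi μ) =
      ∑ k ∈ s, w k * g (k ^ 2 + 3 * k + 1) := by
  rw [integral_finsetSum s fun k _ => (R12_int hq hle μ _).const_mul (w k)]
  refine Finset.sum_congr rfl fun k _ => ?_
  rw [integral_const_mul, Gr_int hq h1 hmul μ hμ _ (Nat.succ_pos _)]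

private theorem R12_norm {q : ℕ} (hq : 0 < q) {g : ℕ → ℂ} (hle : ∀ n : ℕ, 0 < n → ‖g n‖ ≤ 1) (x : ℕ → Mu q)
    (s : Finset ℕ) (P : ℕ → Prop) [DecidablePred P] (T : ℕ → ℕ) :
    ‖∑ k ∈ s.filter P, (((T k : ℝ) / k : ℝ) : ℂ) * Gr q g x (k ^ 2 + 3 * k + 1)‖ ≤ ∑ k ∈ s, (T k : ℝ) / k := by
  refine (norm_sum_le _ _).trans ?_
  have h2 : ∀ k, (0 : ℝ) ≤ (T k : ℝ) / k := fun k => by positivity
  refine le_trans (Finset.sum_le_sum (g := fun k => (T k : ℝ) / k) fun k _ => ?_)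
    (Finset.sum_le_sum_of_subset_of_nonneg (Finset.filter_subset _ _) fun k _ _ => h2 k)
  rw [norm_mul, Complex.norm_real, Real.norm_of_nonneg (h2 k)]
  exact mul_le_of_le_one_right (h2 k) (Gr_le hq hle x _)

theorem win_mean {q : ℕ} (hq : 0 < q) {g : ℕ → ℂ} (h1 : g 1 = 1)
    (hmul : ∀ a b : ℕ, 0 < a → 0 < b → a.Coprime b → g (a * b) = g a * g b) (hle : ∀ n : ℕ, 0 < n → ‖g n‖ ≤ 1)
    (μ : ℕ → Measure (Mu q)) [∀ p, IsProbabilityMeasure (μ p)] (hμ : ∀ p : ℕ, Sp p → ∫ z, (z : ℂ) ∂(μ p) = g p)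
    (hx : ∀ᵐ x ∂(Measure.infinitePi μ), Win Pool.Agent.Lib.MP_d57abb_nt.GA.TZ.tc (Gr q g x)) :
    Win Pool.Agent.Lib.MP_d57abb_nt.GA.TZ.tc g := by
  intro D hD r c hc
  have hL : ∀ i : {i : ℕ × ℕ // 1 ≤ i.1 ∧ i.1 ≤ i.2}, 0 ≤ Real.log ((i.1.2 : ℝ) / i.1.1) := by
    intro i
    have h2 : (0 : ℝ) < i.1.1 := by exact_mod_cast i.2.1
    exact Real.log_nonneg ((one_le_div h2).2 (by exact_mod_cast i.2.2))
  have key := win_int (ι := {i : ℕ × ℕ // 1 ≤ i.1 ∧ i.1 ≤ i.2}) (Measure.infinitePi μ)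
    (fun i x => ∑ k ∈ (Ioc i.1.1 i.1.2).filter (fun k => k ^ 2 + 3 * k + 1 ≡ r [MOD D]),
      ((Pool.Agent.Lib.MP_d57abb_nt.GA.TZ.tc c k / k : ℝ) : ℂ) * Gr q g x (k ^ 2 + 3 * k + 1))
    (fun i => Real.log ((i.1.2 : ℝ) / i.1.1)) hL
    (fun i => Finset.measurable_sum _ fun k _ => (Gr_meas q g _).const_mul _) (3 * c)
    (fun i x => (R12_norm hq hle x _ _ _).trans (win_mass c hc.le i.1.1 i.1.2 i.2.1 i.2.2)) (by
      filter_upwards [hx] with x hx ε hε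
      obtain ⟨K, hK⟩ := hx D hD r c hc ε hε
      exact ⟨K, fun i => hK i.1.1 i.1.2 i.2.1 i.2.2⟩)
  intro ε hε
  obtain ⟨K, hK⟩ := key ε hε
  refine ⟨K, fun A X hA hAX => ?_⟩
  have h3 := hK ⟨(A, X), hA, hAX⟩
  rw [R12_mean hq h1 hmul hle μ hμ] at h3
  exact h3

end Pool.Agent.Lib.MP_d57abb_ntR
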