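import Pool.Agent.Lib.MP_d57abb_ntR.D0

/-!
# Leaf R6: logarithmic means of a function which tends to zero outside a set of logarithmic density zero

Given `ε > 0` there is `X₀` with `a X ≤ ε` for `X ≥ X₀`, `X ∉ E` (`Metric.tendsto_nhds`, `eventually_inf_principal`,
`eventually_atTop`). So `∑ X ∈ Icc 1 N, a X / X ≤ ε * ∑ X ∈ Icc 1 N, 1 / X + C * ∑ X ∈ (Icc 1 N).filter (· ∈ E), 1 / X +
C * X₀` (termwise: `X ≥ X₀` and `X ∉ E`, or `X ∈ E`, or `X < X₀` with term at most `C`), and `∑ X ∈ Icc 1 N, 1 / X ≤ 1 + log N`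
(`harmonic_le_one_add_log`). Divide by `log N` (`N ≥ 3`, `log N ≥ 1`): at most `2 ε + C * (the quotient of Lz) + C X₀ / log N`.
The terms are nonnegative. (`0 ≤ C` from `h0 0`, `hC 0`.)
-/

namespace Pool.Agent.Lib.MP_d57abb_ntR

open Finset Filter Topology MeasureTheory

theorem lm_of_tendsto {a : ℕ → ℝ} {C : ℝ} (h0 : ∀ X, 0 ≤ a X) (hC : ∀ X, a X ≤ C) {E : Set ℕ} (hE : Lz E)
    (h : Tendsto a (atTop ⊓ 𝓟 Eᶜ) (𝓝 0)) : Lm a := by
  classical
  have hC0 : 0 ≤ C := (h0 0).trans (hC 0)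
  refine Metric.tendsto_atTop.mpr fun ε hε => ?_
  have hε4 : 0 ≤ ε / 4 := by positivity
  obtain ⟨X₀, hX₀⟩ : ∃ X₀ : ℕ, ∀ X, X₀ ≤ X → X ∉ E → a X ≤ ε / 4 := by
    have h1 := (Metric.tendsto_nhds.mp h) (ε / 4) (by positivity)
    rw [Filter.eventually_inf_principal, Filter.eventually_atTop] at h1
    obtain ⟨X₀, h2⟩ := h1
    refine ⟨X₀, fun X hX hXE => ?_⟩
    have h3 := h2 X hX hXE
    rw [Real.dist_eq, sub_zero] at h3
    exact (le_abs_self _).trans h3.le
  have hkey : ∀ N : ℕ, ∑ X ∈ Icc 1 N, a X / X ≤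
      ε / 4 * (1 + Real.log N) + C * ∑ X ∈ (Icc 1 N).filter (fun X => X ∈ E), (1 : ℝ) / X + C * X₀ := by
    intro N
    have h1 : ∀ X ∈ Icc 1 N, a X / X ≤
        ε / 4 * ((X : ℝ)⁻¹) + (if X ∈ E then C * ((1 : ℝ) / X) else 0) + (if X < X₀ then C else 0) := by
      intro X hX
      have hX1 : 1 ≤ X := (mem_Icc.mp hX).1
      have hXi : (X : ℝ)⁻¹ ≤ 1 := inv_le_one_of_one_le₀ (by exact_mod_cast hX1)
      have hXi0 : 0 ≤ (X : ℝ)⁻¹ := by positivity
      have hp : 0 ≤ ε / 4 * (X : ℝ)⁻¹ := mul_nonneg hε4 hXi0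
      rw [div_eq_mul_inv, one_div]
      by_cases hXE : X ∈ E
      · rw [if_pos hXE]
        have h2 := mul_le_mul_of_nonneg_right (hC X) hXi0
        have h3 : 0 ≤ if X < X₀ then C else 0 := by
          split_ifs
          · exact hC0
          · exact le_rfl
        linarith
      · rw [if_neg hXE]
        by_cases hXX : X < X₀
        · rw [if_pos hXX]
          have h4 : a X * (X : ℝ)⁻¹ ≤ C * 1 := mul_le_mul (hC X) hXi hXi0 hC0
          linarith
        · rw [if_neg hXX]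
          have h4 := mul_le_mul_of_nonneg_right (hX₀ X (not_lt.mp hXX) hXE) hXi0
          linarith
    refine (sum_le_sum h1).trans ?_
    rw [sum_add_distrib, sum_add_distrib, ← mul_sum, ← sum_filter, ← mul_sum, ← sum_filter]
    have h2 : ∑ X ∈ Icc 1 N, (X : ℝ)⁻¹ ≤ 1 + Real.log N := by
      have h5 := harmonic_le_one_add_log N
      rw [harmonic_eq_sum_Icc] at h5
      push_cast at h5
      exact h5
    have h3 : ∑ X ∈ (Icc 1 N).filter (fun X => X < X₀), C ≤ C * X₀ := by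
      rw [sum_const, nsmul_eq_mul, mul_comm]
      refine mul_le_mul_of_nonneg_left ?_ hC0
      have h6 : ((Icc 1 N).filter (fun X => X < X₀)).card ≤ (range X₀).card :=
        card_le_card (fun X hX => mem_range.mpr (mem_filter.mp hX).2)
      rw [card_range] at h6
      exact_mod_cast h6
    have h4 := mul_le_mul_of_nonneg_left h2 hε4
    linarith
  have hlog : Tendsto (fun N : ℕ => Real.log N) atTop atTop :=
    Real.tendsto_log_atTop.comp tendsto_natCast_atTop_atTop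
  have hlim : Tendsto (fun N : ℕ => C * ((∑ X ∈ (Icc 1 N).filter (fun X => X ∈ E), (1 : ℝ) / X) / Real.log N) +
      (C * X₀) / Real.log N) atTop (𝓝 0) := by
    have h1 := (hE.const_mul C).add ((tendsto_const_nhds (x := C * (X₀ : ℝ))).div_atTop hlog)
    simpa using h1
  have hev1 := hlim.eventually (gt_mem_nhds (show (0 : ℝ) < ε / 2 by positivity))
  have hev2 := hlog.eventually_ge_atTop 1
  obtain ⟨N₀, hN₀⟩ := Filter.eventually_atTop.mp (hev1.and hev2)
  refine ⟨N₀, fun N hN => ?_⟩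
  obtain ⟨h1, h2⟩ := hN₀ N hN
  have hl : (0 : ℝ) < Real.log N := by linarith
  have hnn : 0 ≤ (∑ X ∈ Icc 1 N, a X / X) / Real.log N :=
    div_nonneg (sum_nonneg fun X _ => div_nonneg (h0 X) (Nat.cast_nonneg X)) hl.le
  rw [Real.dist_eq, sub_zero, abs_of_nonneg hnn]
  have h3 : (∑ X ∈ Icc 1 N, a X / X) / Real.log N ≤
      (ε / 4 * (1 + Real.log N) + C * ∑ X ∈ (Icc 1 N).filter (fun X => X ∈ E), (1 : ℝ) / X + C * X₀) / Real.log N :=
    div_le_div_of_nonneg_right (hkey N) hl.le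
  have h4 : (ε / 4 * (1 + Real.log N) + C * ∑ X ∈ (Icc 1 N).filter (fun X => X ∈ E), (1 : ℝ) / X + C * X₀) / Real.log N =
      ε / 4 * ((1 + Real.log N) / Real.log N) +
        (C * ((∑ X ∈ (Icc 1 N).filter (fun X => X ∈ E), (1 : ℝ) / X) / Real.log N) + (C * X₀) / Real.log N) := by
    ring
  have h5 : (1 + Real.log N) / Real.log N ≤ 2 := by
    rw [div_le_iff₀ hl]
    linarith
  have h6 := mul_le_mul_of_nonneg_left h5 hε4
  rw [h4] at h3
  linarith

end Pool.Agent.Lib.MP_d57abb_ntR
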