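import Pool.Agent.Lib.MP_d57abb_ntR.D0

/-!
# Leaf R7: logarithmic means, from almost all `ω` to the mean

Let `F N ω = (∑ X ∈ Icc 1 N, ‖M X ω‖ / X) / Real.log N`. For `N ≥ 2`: `0 ≤ F N ω ≤ C * (1 + log N) / log N ≤ 3 * C`
(`harmonic_le_one_add_log`, `log N ≥ log 2 > 1 / 2`), measurable; `F N ω → 0` for almost every `ω` (`h`). So `∫ F N → 0`
(`tendsto_integral_filter_of_dominated_convergence` with the constant bound `3 * C`, eventually in `N`). Finally
`0 ≤ (∑ X ∈ Icc 1 N, ‖∫ M X‖ / X) / log N ≤ ∫ F N` (`norm_integral_le_integral_norm`, `integral_finset_sum`, `integral_div`) and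
squeeze. (`0 ≤ C` since `‖M 0 ω‖ ≤ C` and a probability space is nonempty.)
-/

namespace Pool.Agent.Lib.MP_d57abb_ntR

open Finset Filter Topology MeasureTheory

theorem lm_int {Ω : Type*} [MeasurableSpace Ω] (P : Measure Ω) [IsProbabilityMeasure P]
    (M : ℕ → Ω → ℂ) (hm : ∀ X, Measurable (M X)) (C : ℝ) (hC : ∀ X ω, ‖M X ω‖ ≤ C)
    (h : ∀ᵐ ω ∂P, Lm (fun X => ‖M X ω‖)) : Lm (fun X => ‖∫ ω, M X ω ∂P‖) := by
  obtain ⟨ω0⟩ : Nonempty Ω := nonempty_of_isProbabilityMeasure P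
  have hC0 : 0 ≤ C := (norm_nonneg _).trans (hC 0 ω0)
  have hint : ∀ X, Integrable (fun ω => ‖M X ω‖) P := fun X =>
    Integrable.of_bound (hm X).norm.aestronglyMeasurable C
      (Eventually.of_forall fun ω => by rw [norm_norm]; exact hC X ω)
  have hmeas : ∀ N : ℕ, AEStronglyMeasurable
      (fun ω => (∑ X ∈ Icc 1 N, ‖M X ω‖ / X) / Real.log N) P := fun N =>
    ((Finset.measurable_sum _ fun X _ => (hm X).norm.div_const _).div_const _).aestronglyMeasurable
  have hbound : ∀ N : ℕ, 2 ≤ N → ∀ ω,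
      ‖(∑ X ∈ Icc 1 N, ‖M X ω‖ / X) / Real.log N‖ ≤ 3 * C := fun N hN ω => by
    have hlog2 : (1 : ℝ) / 2 < Real.log N := by
      have h1 := Real.log_two_gt_d9
      have h2 : Real.log 2 ≤ Real.log N := Real.log_le_log (by norm_num) (by exact_mod_cast hN)
      linarith
    have hlog : 0 < Real.log N := by linarith
    have h0 : 0 ≤ ∑ X ∈ Icc 1 N, ‖M X ω‖ / (X : ℝ) :=
      Finset.sum_nonneg fun X _ => div_nonneg (norm_nonneg _) (Nat.cast_nonneg _)
    rw [Real.norm_eq_abs, abs_of_nonneg (div_nonneg h0 hlog.le), div_le_iff₀ hlog]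
    have h1 : ∑ X ∈ Icc 1 N, ‖M X ω‖ / (X : ℝ) ≤ C * ∑ X ∈ Icc 1 N, ((X : ℝ))⁻¹ := by
      rw [Finset.mul_sum]
      refine Finset.sum_le_sum fun X _ => ?_
      rw [div_eq_mul_inv]
      exact mul_le_mul_of_nonneg_right (hC X ω) (inv_nonneg.mpr (Nat.cast_nonneg _))
    have h2 : ∑ X ∈ Icc 1 N, ((X : ℝ))⁻¹ ≤ 1 + Real.log N := by
      have h3 := harmonic_le_one_add_log N
      rw [harmonic_eq_sum_Icc] at h3
      push_cast at h3
      exact h3
    have h3 : C * ∑ X ∈ Icc 1 N, ((X : ℝ))⁻¹ ≤ C * (1 + Real.log N) :=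
      mul_le_mul_of_nonneg_left h2 hC0
    nlinarith [mul_nonneg hC0 (by linarith : (0 : ℝ) ≤ 2 * Real.log N - 1)]
  have hlim : Tendsto (fun N : ℕ => ∫ ω, (∑ X ∈ Icc 1 N, ‖M X ω‖ / X) / Real.log N ∂P) atTop
      (𝓝 (∫ _, (0 : ℝ) ∂P)) := by
    refine tendsto_integral_filter_of_dominated_convergence (fun _ => 3 * C)
      (Eventually.of_forall hmeas) ?_ (integrable_const _) h
    filter_upwards [eventually_ge_atTop 2] with N hN
    exact Eventually.of_forall (hbound N hN)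
  rw [integral_zero] at hlim
  refine squeeze_zero' ?_ ?_ hlim
  · filter_upwards [eventually_ge_atTop 1] with N hN
    exact div_nonneg (Finset.sum_nonneg fun X _ => div_nonneg (norm_nonneg _) (Nat.cast_nonneg _))
      (Real.log_natCast_nonneg N)
  · filter_upwards [eventually_ge_atTop 1] with N hN
    rw [integral_div, integral_finsetSum _ fun X _ => (hint X).div_const _]
    refine div_le_div_of_nonneg_right (Finset.sum_le_sum fun X _ => ?_) (Real.log_natCast_nonneg N)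
    rw [integral_div]
    exact div_le_div_of_nonneg_right (norm_integral_le_integral_norm _) (Nat.cast_nonneg _)

end Pool.Agent.Lib.MP_d57abb_ntR
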