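import Pool.Agent.Lib.MP_d57abb_ntR.D0
import Pool.Agent.Lib.MP_d57abb_nt.GT.Defs
import Pool.Agent.Lib.MP_d57abb_nt.GA.AS.Diag

/-!
# Leaf R8: one exceptional set of logarithmic density zero for countably many functions (Koopman - von Neumann)

`Pool.Agent.Lib.MP_d57abb_nt.GA.AS.LN P` is the same as `Lz {X | P X}` (unfold both; only the decidability instances may differ).
For `b ≥ 0` with `Lm b` and `δ > 0` the set `{X | δ < b X}` satisfies `LN`: `∑ X ∈ (Icc 1 N).filter (δ < b ·), 1 / X ≤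
(1 / δ) * ∑ X ∈ Icc 1 N, b X / X`, divide by `log N` and squeeze. `ι × ℕ` is countable and nonempty (if `ι` is empty take
`E = ∅`): with a surjection `e : ℕ → ι × ℕ` (`exists_surjective_nat`) apply
`@Pool.Agent.Lib.MP_d57abb_nt.GA.AS.diag Pool.Agent.Lib.MP_d57abb_nt.GT.lab0` (the label plays no role) to
`P j X = (1 / (n + 1) < b i X)`, `(i, n) = e j`: one `E` with `LN (· ∈ E)` such that for all `j` eventually `P j X → X ∈ E`. So
outside `E` eventually `b i X ≤ 1 / (n + 1)`, for all `i` and `n`. (`GV/FinC.lean`, `natTw`, and `GT/FinA.lean`, `natAv`, use `diag`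
in the same way.)
-/

namespace Pool.Agent.Lib.MP_d57abb_ntR

open Finset Filter Topology MeasureTheory

private theorem R8_one {b : ℕ → ℝ} (h0 : ∀ X, 0 ≤ b X) (h : Lm b) {δ : ℝ} (hδ : 0 < δ) :
    Pool.Agent.Lib.MP_d57abb_nt.GA.AS.LN (fun X => δ < b X) := by
  classical
  unfold Pool.Agent.Lib.MP_d57abb_nt.GA.AS.LN
  unfold Lm at h
  have h1 := h.const_mul (1 / δ)
  rw [mul_zero] at h1
  refine squeeze_zero (fun N => ?_) (fun N => ?_) h1
  · exact div_nonneg (Finset.sum_nonneg fun X _ => by positivity) (Real.log_natCast_nonneg N)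
  · rw [← mul_div_assoc]
    refine div_le_div_of_nonneg_right ?_ (Real.log_natCast_nonneg N)
    rw [Finset.mul_sum]
    refine (Finset.sum_le_sum (g := fun X : ℕ => 1 / δ * (b X / X)) fun X hX => ?_).trans
      (Finset.sum_le_sum_of_subset_of_nonneg (Finset.filter_subset _ _) fun X _ _ => ?_)
    · have h2 : δ < b X := (Finset.mem_filter.1 hX).2
      have h3 : (1 : ℝ) ≤ 1 / δ * b X := by
        rw [one_div, inv_mul_eq_div, le_div_iff₀ hδ, one_mul]
        exact h2.le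
      have h4 : (0 : ℝ) ≤ 1 / (X : ℝ) := by positivity
      calc (1 : ℝ) / X = 1 * (1 / X) := (one_mul _).symm
        _ ≤ (1 / δ * b X) * (1 / X) := mul_le_mul_of_nonneg_right h3 h4
        _ = 1 / δ * (b X / X) := by ring
    · exact mul_nonneg (by positivity) (div_nonneg (h0 X) (Nat.cast_nonneg X))

theorem kvn {ι : Type*} [Countable ι] (b : ι → ℕ → ℝ) (h0 : ∀ i X, 0 ≤ b i X) (h : ∀ i, Lm (b i)) :
    ∃ E : Set ℕ, Lz E ∧ ∀ i, Tendsto (b i) (atTop ⊓ 𝓟 Eᶜ) (𝓝 0) := by
  classical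
  rcases isEmpty_or_nonempty ι with hι | hι
  · refine ⟨∅, ?_, fun i => hι.elim i⟩
    unfold Lz
    simp only [Set.mem_empty_iff_false, Finset.filter_false, Finset.sum_empty, zero_div]
    exact tendsto_const_nhds
  · obtain ⟨e, he⟩ := exists_surjective_nat (ι × ℕ)
    obtain ⟨E, hE1, hE2⟩ := @Pool.Agent.Lib.MP_d57abb_nt.GA.AS.diag
      Pool.Agent.Lib.MP_d57abb_nt.GT.lab0
      (fun j X => 1 / (((e j).2 : ℝ) + 1) < b (e j).1 X)
      (fun j => R8_one (h0 (e j).1) (h (e j).1) (by positivity))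
    refine ⟨E, hE1, fun i => ?_⟩
    rw [Metric.tendsto_nhds]
    intro ε hε
    obtain ⟨n, hn⟩ := exists_nat_one_div_lt hε
    obtain ⟨j, hj⟩ := he (i, n)
    obtain ⟨N, hN⟩ := hE2 j
    rw [eventually_inf_principal]
    filter_upwards [eventually_ge_atTop N] with X hX hXE
    have h1 : ¬ 1 / (((e j).2 : ℝ) + 1) < b (e j).1 X := fun h2 => hXE (hN X hX h2)
    rw [hj] at h1
    rw [Real.dist_0_eq_abs, abs_of_nonneg (h0 i X)]
    exact (not_lt.1 h1).trans_lt hn

end Pool.Agent.Lib.MP_d57abb_ntR
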