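import Pool.Agent.Lib.MP_d57abb_ntR.D0
import Pool.Agent.Lib.MP_d57abb_nt.GT.Defs
import Pool.Agent.Lib.MP_d57abb_nt.GA.AS.RealC

/-!
# Leaf R9: from rational to real `c`, for a general bounded function

A copy of the theorem `realC` of `Pool/Agent/Lib/MP_d57abb_nt/GA/AS/RealC.lean` (the file is in the package; copy its two private
lemmas and its proof): `z ^ om k` is replaced by `h k` and `‖z ^ om k‖ = 1` by `‖h k‖ ≤ 1`; begin with
`haveI := Pool.Agent.Lib.MP_d57abb_nt.GT.lab0` (or use `@thinN Pool.Agent.Lib.MP_d57abb_nt.GT.lab0`), since `thinN` asks for an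
instance `Lab` which plays no role.
-/

namespace Pool.Agent.Lib.MP_d57abb_ntR

open Finset Filter Topology MeasureTheory

section

open Pool.Agent.Lib.MP_d57abb_nt Pool.Agent.Lib.MP_d57abb_nt.GA.TA Pool.Agent.Lib.MP_d57abb_nt.GA.TZ
open Pool.Agent.Lib.MP_d57abb_nt.GA.TS

private theorem R9_mono {a b : ℝ} (hab : a ≤ b) (k : ℕ) : tc a k ≤ tc b k := by
  classical
  unfold tc
  refine card_le_card ?_
  intro d hd
  rw [mem_filter] at hd ⊢
  obtain ⟨h1, h2, h3⟩ := hd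
  have hk : (0 : ℝ) ≤ k := Nat.cast_nonneg k
  have hd0 : (0 : ℝ) ≤ d := Nat.cast_nonneg d
  exact ⟨h1, h2.trans (mul_le_mul_of_nonneg_right hab hd0),
    h3.trans (mul_le_mul_of_nonneg_right hab hk)⟩

private theorem R9_le {a b : ℝ} (ha : 0 < a) (hb : 0 < b) (k : ℕ) :
    tc b k ≤ tc a k + (wn (1 / b) (1 / a) k + wn a b k) := by
  classical
  unfold tc wn
  have hsub : (ff k).divisors.filter (fun d : ℕ => (k : ℝ) ≤ b * d ∧ (d : ℝ) ≤ b * k) ⊆
      (ff k).divisors.filter (fun d : ℕ => (k : ℝ) ≤ a * d ∧ (d : ℝ) ≤ a * k) ∪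
        ((ff k).divisors.filter (fun d : ℕ => 1 / b * k ≤ (d : ℝ) ∧ (d : ℝ) ≤ 1 / a * k) ∪
          (ff k).divisors.filter (fun d : ℕ => a * k ≤ (d : ℝ) ∧ (d : ℝ) ≤ b * k)) := by
    intro d hd
    rw [mem_filter] at hd
    rw [mem_union, mem_union, mem_filter, mem_filter, mem_filter]
    obtain ⟨h1, h2, h3⟩ := hd
    by_cases h4 : (k : ℝ) ≤ a * d
    · by_cases h5 : (d : ℝ) ≤ a * k
      · exact Or.inl ⟨h1, h4, h5⟩
      · exact Or.inr (Or.inr ⟨h1, (not_le.1 h5).le, h3⟩)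
    · refine Or.inr (Or.inl ⟨h1, ?_, ?_⟩)
      · rw [one_div, inv_mul_le_iff₀ hb]
        exact h2
      · rw [one_div, le_inv_mul_iff₀ ha]
        exact (not_le.1 h4).le
  exact (card_le_card hsub).trans ((card_union_le _ _).trans (Nat.add_le_add_left (card_union_le _ _) _))

private theorem R9_real {F : Filter ℕ} (hF : F ≤ atTop) {h : ℕ → ℂ} (hh : ∀ k, ‖h k‖ ≤ 1)
    (H : ∀ c : ℚ, 1 < (c : ℝ) →
      Tendsto (fun X : ℕ => ‖∑ k ∈ Icc 1 X, (tc (c : ℝ) k : ℂ) * h k‖ / X) F (𝓝 0))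
    (c : ℝ) (hc : 1 < c) :
    Tendsto (fun X : ℕ => ‖∑ k ∈ Icc 1 X, (tc c k : ℂ) * h k‖ / X) F (𝓝 0) := by
  obtain ⟨C, C', hC, hC', hthin⟩ := @thinN Pool.Agent.Lib.MP_d57abb_nt.GT.lab0 c hc.le
  rw [Metric.tendsto_nhds]
  intro ε hε
  obtain ⟨q, hq1, hq2⟩ := exists_rat_btwn (show max 1 (c - ε / (8 * C)) < c from
    max_lt hc (by have : 0 < ε / (8 * C) := by positivity
                  linarith))
  have hq3 : (1 : ℝ) < q := lt_of_le_of_lt (le_max_left _ _) hq1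
  have hq4 : c - ε / (8 * C) < q := lt_of_le_of_lt (le_max_right _ _) hq1
  have hd : C * (c - q) ≤ ε / 8 := by
    have h1 : c - q ≤ ε / (8 * C) := by linarith
    have h2 := mul_le_mul_of_nonneg_left h1 hC.le
    have h3 : C * (ε / (8 * C)) = ε / 8 := by field_simp
    linarith
  have hd2 : C * (1 / (q : ℝ) - 1 / c) ≤ ε / 8 := by
    have h1 : 1 / (q : ℝ) - 1 / c ≤ c - q := by
      have h2 : 1 / (q : ℝ) - 1 / c = (c - q) / (q * c) := by
        field_simp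
      rw [h2]
      refine div_le_self (by linarith) ?_
      exact (one_lt_mul_of_lt_of_le hq3 hc.le).le
    have h2 := mul_le_mul_of_nonneg_left h1 hC.le
    linarith
  have hw1 : ∀ N : ℕ, ∑ k ∈ Icc 1 N, (wn (1 / c) (1 / (q : ℝ)) k : ℝ) ≤
      C * (1 / (q : ℝ) - 1 / c) * N + C' * √N := by
    intro N
    refine hthin _ _ le_rfl ?_ ?_ N
    · exact one_div_le_one_div_of_le (by linarith) hq2.le
    · have h1 : 1 / (q : ℝ) ≤ 1 := by
        rw [div_le_one (by linarith)]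
        exact hq3.le
      linarith
  have hw2 : ∀ N : ℕ, ∑ k ∈ Icc 1 N, (wn (q : ℝ) c k : ℝ) ≤ C * (c - q) * N + C' * √N := by
    intro N
    refine hthin _ _ ?_ hq2.le le_rfl N
    have h1 : 1 / c ≤ 1 := by
      rw [div_le_one (by linarith)]
      exact hc.le
    linarith
  obtain ⟨X0, hX0⟩ := exists_nat_ge ((8 * C' / ε) ^ 2)
  filter_upwards [(Metric.tendsto_nhds.1 (H q hq3)) (ε / 4) (by positivity),
    hF (eventually_ge_atTop (max X0 1))] with X hX1 hX2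
  have hX3 : X0 ≤ X := (le_max_left _ _).trans hX2
  have hX4 : 1 ≤ X := (le_max_right _ _).trans hX2
  have hXpos : (0 : ℝ) < X := by exact_mod_cast hX4
  rw [Real.dist_eq, sub_zero, abs_of_nonneg (by positivity)] at hX1 ⊢
  have hpt1 : ∀ k, tc (q : ℝ) k ≤ tc c k := R9_mono hq2.le
  have hpt2 : ∀ k, tc c k ≤ tc (q : ℝ) k + (wn (1 / c) (1 / (q : ℝ)) k + wn (q : ℝ) c k) :=
    R9_le (by linarith) (by linarith)
  have hsum : ‖∑ k ∈ Icc 1 X, (tc c k : ℂ) * h k‖ ≤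
      ‖∑ k ∈ Icc 1 X, (tc (q : ℝ) k : ℂ) * h k‖ +
        (∑ k ∈ Icc 1 X, (wn (1 / c) (1 / (q : ℝ)) k : ℝ) + ∑ k ∈ Icc 1 X, (wn (q : ℝ) c k : ℝ)) := by
    have h1 : ∑ k ∈ Icc 1 X, (tc c k : ℂ) * h k =
        ∑ k ∈ Icc 1 X, (tc (q : ℝ) k : ℂ) * h k +
          ∑ k ∈ Icc 1 X, ((tc c k : ℂ) - (tc (q : ℝ) k : ℂ)) * h k := by
      rw [← sum_add_distrib]
      refine sum_congr rfl fun k _ => ?_
      ring
    rw [h1]
    refine (norm_add_le _ _).trans (add_le_add le_rfl ?_)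
    refine (norm_sum_le _ _).trans ?_
    rw [← sum_add_distrib]
    refine sum_le_sum fun k _ => ?_
    rw [norm_mul]
    refine (mul_le_of_le_one_right (norm_nonneg _) (hh k)).trans ?_
    have h2 : ((tc c k : ℂ) - (tc (q : ℝ) k : ℂ)) = (((tc c k : ℝ) - (tc (q : ℝ) k : ℝ) : ℝ) : ℂ) := by
      push_cast
      ring
    have h3 : (tc (q : ℝ) k : ℝ) ≤ tc c k := by exact_mod_cast hpt1 k
    have h4 : (tc c k : ℝ) ≤ tc (q : ℝ) k + (wn (1 / c) (1 / (q : ℝ)) k + wn (q : ℝ) c k) := by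
      exact_mod_cast hpt2 k
    rw [h2, Complex.norm_real, Real.norm_eq_abs, abs_of_nonneg (by linarith)]
    linarith
  have hs : 2 * C' * √(X : ℝ) ≤ ε / 4 * X := by
    have h1 : 8 * C' / ε ≤ √(X : ℝ) := by
      refine Real.le_sqrt_of_sq_le ?_
      refine hX0.trans ?_
      exact_mod_cast hX3
    rw [div_le_iff₀ hε] at h1
    have h2 : √(X : ℝ) * √(X : ℝ) = X := Real.mul_self_sqrt hXpos.le
    have h3 := mul_le_mul_of_nonneg_right h1 (Real.sqrt_nonneg (X : ℝ))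
    calc 2 * C' * √(X : ℝ) = (8 * C' * √(X : ℝ)) / 4 := by ring
      _ ≤ (√(X : ℝ) * ε * √(X : ℝ)) / 4 := by linarith
      _ = ε / 4 * (√(X : ℝ) * √(X : ℝ)) := by ring
      _ = ε / 4 * X := by rw [h2]
  have e1 := hw1 X
  have e2 := hw2 X
  have e3 := mul_le_mul_of_nonneg_right hd hXpos.le
  have e4 := mul_le_mul_of_nonneg_right hd2 hXpos.le
  rw [div_lt_iff₀ hXpos] at hX1 ⊢
  have hεX : 0 < ε * X := by positivity
  linarith

end

theorem real_c {F : Filter ℕ} (hF : F ≤ atTop) {h : ℕ → ℂ} (hh : ∀ k, ‖h k‖ ≤ 1)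
    (H : ∀ c : ℚ, 1 < (c : ℝ) →
      Tendsto (fun X : ℕ => ‖∑ k ∈ Icc 1 X, (Pool.Agent.Lib.MP_d57abb_nt.GA.TZ.tc (c : ℝ) k : ℂ) * h k‖ / X) F (𝓝 0))
    (c : ℝ) (hc : 1 < c) :
    Tendsto (fun X : ℕ => ‖∑ k ∈ Icc 1 X, (Pool.Agent.Lib.MP_d57abb_nt.GA.TZ.tc c k : ℂ) * h k‖ / X) F (𝓝 0) := by
  exact R9_real hF hh H c hc

end Pool.Agent.Lib.MP_d57abb_ntR
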