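import Pool.Agent.Lib.MP_d57abb_ntR.R2
import Pool.Agent.Lib.MP_d57abb_ntR.R6
import Pool.Agent.Lib.MP_d57abb_ntR.R7
import Pool.Agent.Lib.MP_d57abb_ntR.R8
import Pool.Agent.Lib.MP_d57abb_ntR.R9
import Pool.Agent.Lib.MP_d57abb_ntR.R10

/-!
# Leaf R13: almost all scales

Index type `ι = {i : ℚ × ℕ × ℕ // 1 < (i.1 : ℝ) ∧ 0 < i.2.1}` (`i = (c, D, r)`, countable). For `i : ι` and `X : ℕ` let
`M i X x = (∑ k ∈ (Icc 1 X).filter (fun k => k ^ 2 + 3 * k + 1 ≡ r [MOD D]), (tc c k : ℂ) * Gr q g x (k ^ 2 + 3 * k + 1)) / X`.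
Then `‖M i X x‖ ≤ 3 * c` (`Gr_le`, `mass_le'`; for `X = 0` it is `0`), measurable (`Gr_meas`). For almost every `x`: `hx` gives `E` with
`Lz E` and `M i X x → 0` along `atTop ⊓ 𝓟 Eᶜ`, so `Lm (fun X => ‖M i X x‖)` by `lm_of_tendsto` (leaf R6). `lm_int` (leaf R7):
`Lm (fun X => ‖∫ x, M i X x‖)`, and `∫ x, M i X x = (∑ ... (tc c k : ℂ) * g (k ^ 2 + 3 * k + 1)) / X =: b i X` (`Gr_int`,
`integral_finset_sum`, `integral_const_mul`, `integral_div`). `kvn` (leaf R8) for the functions `‖b i X‖`: one `E` with `Lz E` and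
`‖b i X‖ → 0` along `atTop ⊓ 𝓟 Eᶜ` for all `i`. For real `c > 1`: `real_c` (leaf R9) with
`h k = if k ^ 2 + 3 * k + 1 ≡ r [MOD D] then g (k ^ 2 + 3 * k + 1) else 0` (`Finset.sum_filter`, `mul_ite`), and
`tendsto_zero_iff_norm_tendsto_zero` (`‖s / X‖ = ‖s‖ / X`).
-/

namespace Pool.Agent.Lib.MP_d57abb_ntR

open Finset Filter Topology MeasureTheory

/-- the sum over the `k ≤ X` with weights `tc c`, for the function `G` -/
private noncomputable def R13_S (G : ℕ → ℂ) (c : ℝ) (D r X : ℕ) : ℂ :=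
  (∑ k ∈ (Icc 1 X).filter (fun k => k ^ 2 + 3 * k + 1 ≡ r [MOD D]),
    (Pool.Agent.Lib.MP_d57abb_nt.GA.TZ.tc c k : ℂ) * G (k ^ 2 + 3 * k + 1)) / X

private theorem R13_norm {G : ℕ → ℂ} (hG : ∀ n : ℕ, 0 < n → ‖G n‖ ≤ 1) (c : ℝ) (hc : 1 ≤ c) (D r X : ℕ) :
    ‖R13_S G c D r X‖ ≤ 3 * c := by
  unfold R13_S
  have hc0 : 0 ≤ 3 * c := by linarith
  rw [norm_div, Complex.norm_natCast]
  refine div_le_of_le_mul₀ (Nat.cast_nonneg _) hc0 ?_
  refine (norm_sum_le _ _).trans ?_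
  refine (Finset.sum_le_sum_of_subset_of_nonneg (Finset.filter_subset _ _) fun _ _ _ => norm_nonneg _).trans ?_
  refine le_trans (Finset.sum_le_sum fun k _ => ?_) (mass_le' c hc X)
  rw [norm_mul, Complex.norm_natCast]
  exact mul_le_of_le_one_right (Nat.cast_nonneg _) (hG _ (Nat.succ_pos _))

private theorem R13_meas (q : ℕ) (g : ℕ → ℂ) (c : ℝ) (D r X : ℕ) :
    Measurable (fun x : ℕ → Mu q => R13_S (Gr q g x) c D r X) := by
  unfold R13_S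
  exact (Finset.measurable_sum _ fun k _ => (Gr_meas q g _).const_mul _).div_const _

private theorem R13_int {q : ℕ} (hq : 0 < q) {g : ℕ → ℂ} (h1 : g 1 = 1)
    (hmul : ∀ a b : ℕ, 0 < a → 0 < b → a.Coprime b → g (a * b) = g a * g b) (hle : ∀ n : ℕ, 0 < n → ‖g n‖ ≤ 1)
    (μ : ℕ → Measure (Mu q)) [∀ p, IsProbabilityMeasure (μ p)] (hμ : ∀ p : ℕ, Sp p → ∫ z, (z : ℂ) ∂(μ p) = g p)
    (c : ℝ) (D r X : ℕ) : ∫ x, R13_S (Gr q g x) c D r X ∂(Measure.infinitePi μ) = R13_S g c D r X := by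
  unfold R13_S
  rw [integral_div, integral_finsetSum]
  · refine congrArg (fun z : ℂ => z / X) (Finset.sum_congr rfl fun k _ => ?_)
    rw [integral_const_mul, Gr_int hq h1 hmul μ hμ _ (Nat.succ_pos _)]
  · intro k _
    refine Integrable.const_mul ?_ _
    exact Integrable.of_bound (Gr_meas q g _).aestronglyMeasurable 1 (Filter.Eventually.of_forall fun x => Gr_le hq hle x _)

theorem sca_mean {q : ℕ} (hq : 0 < q) {g : ℕ → ℂ} (h1 : g 1 = 1)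
    (hmul : ∀ a b : ℕ, 0 < a → 0 < b → a.Coprime b → g (a * b) = g a * g b) (hle : ∀ n : ℕ, 0 < n → ‖g n‖ ≤ 1)
    (μ : ℕ → Measure (Mu q)) [∀ p, IsProbabilityMeasure (μ p)] (hμ : ∀ p : ℕ, Sp p → ∫ z, (z : ℂ) ∂(μ p) = g p)
    (hx : ∀ᵐ x ∂(Measure.infinitePi μ), Sca Pool.Agent.Lib.MP_d57abb_nt.GA.TZ.tc (Gr q g x)) :
    Sca Pool.Agent.Lib.MP_d57abb_nt.GA.TZ.tc g := by
  have hLm : ∀ (c : ℝ) (D r : ℕ), 1 < c → 0 < D → Lm (fun X => ‖R13_S g c D r X‖) := by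
    intro c D r hc hD
    have h := lm_int (Measure.infinitePi μ) (fun X x => R13_S (Gr q g x) c D r X) (fun X => R13_meas q g c D r X) (3 * c)
      (fun X x => R13_norm (fun n _ => Gr_le hq hle x n) c hc.le D r X) ?_
    · have h2 : (fun X => ‖∫ x, R13_S (Gr q g x) c D r X ∂(Measure.infinitePi μ)‖) = fun X => ‖R13_S g c D r X‖ := by
        funext X
        rw [R13_int hq h1 hmul hle μ hμ]
      rw [h2] at h
      exact h
    · filter_upwards [hx] with x hxx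
      obtain ⟨E, hE, h⟩ := hxx
      exact lm_of_tendsto (C := 3 * c) (fun X => norm_nonneg _)
        (fun X => R13_norm (fun n _ => Gr_le hq hle x n) c hc.le D r X) hE
        (tendsto_zero_iff_norm_tendsto_zero.1 (h c hc D hD r))
  obtain ⟨E, hE, hb⟩ := kvn (ι := {i : ℚ × ℕ × ℕ // 1 < (i.1 : ℝ) ∧ 0 < i.2.1})
    (fun i X => ‖R13_S g (i.1.1 : ℝ) i.1.2.1 i.1.2.2 X‖) (fun i X => norm_nonneg _) (fun i => hLm _ _ _ i.2.1 i.2.2)
  refine ⟨E, hE, fun c hc D hD r => ?_⟩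
  have hsum : ∀ (c : ℝ) (X : ℕ), ‖∑ k ∈ Icc 1 X, (Pool.Agent.Lib.MP_d57abb_nt.GA.TZ.tc c k : ℂ) *
      (if k ^ 2 + 3 * k + 1 ≡ r [MOD D] then g (k ^ 2 + 3 * k + 1) else 0)‖ / X = ‖R13_S g c D r X‖ := by
    intro c X
    unfold R13_S
    rw [norm_div, Complex.norm_natCast, Finset.sum_filter]
    refine congrArg (fun z : ℂ => ‖z‖ / (X : ℝ)) (Finset.sum_congr rfl fun k _ => ?_)
    rw [mul_ite, mul_zero]
  refine tendsto_zero_iff_norm_tendsto_zero.2 ?_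
  have h := real_c (F := atTop ⊓ 𝓟 Eᶜ) inf_le_left
    (h := fun k => if k ^ 2 + 3 * k + 1 ≡ r [MOD D] then g (k ^ 2 + 3 * k + 1) else 0) (fun k => ?_) (fun c' hc' => ?_) c hc
  · refine h.congr fun X => ?_
    exact hsum c X
  · split_ifs
    · exact hle _ (Nat.succ_pos _)
    · rw [norm_zero]
      exact zero_le_one
  · refine (hb ⟨(c', D, r), hc', hD⟩).congr fun X => ?_
    exact (hsum c' X).symm

end Pool.Agent.Lib.MP_d57abb_ntR
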