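import Pool.Agent.Lib.MP_d57abb_ntR.R3
import Pool.Agent.Lib.MP_d57abb_ntR.R11
import Pool.Agent.Lib.MP_d57abb_ntR.R12
import Pool.Agent.Lib.MP_d57abb_ntR.R13

/-!
# Leaf R14: functions with values in the convex hull of the roots of unity, over the law for roots of unity

`hbb` is the law for functions whose values at the split primes are `q`-th roots of unity. If `g 1 = 0` then `g n = g n * g 1 = 0` for
`n > 0`, and both conclusions are trivial (all sums are `0`; `E = ∅`; for `Win` take `K = 0`, `log (X / A) ≥ 0`). Else `g 1 = 1`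
(`g 1 = g 1 * g 1`). Measures: for a split prime `p` a probability measure on `Mu q` with mean `g p` (`exists_mu`, leaf R3), for other
`p` the Dirac measure at `1`. For almost every `x` the function `G = Gr q g x` satisfies the hypotheses of `hbb`: `Gr_mul`, `Gr_le`,
`Gr_prime` (`x p ^ q = 1` is `(x p).2`), and `np_ae` (leaf R11). So `win_mean`, `sca_mean` (leaves R12, R13).
-/

namespace Pool.Agent.Lib.MP_d57abb_ntR

open Finset Filter Topology MeasureTheory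

private theorem R14_zero {T : ℝ → ℕ → ℕ} {g : ℕ → ℂ} (hg : ∀ n : ℕ, 0 < n → g n = 0) : Win T g ∧ Sca T g := by
  have h0 : ∀ k : ℕ, g (k ^ 2 + 3 * k + 1) = 0 := fun k => hg _ (Nat.succ_pos _)
  constructor
  · intro D _ r c _ ε hε
    refine ⟨0, fun A X hA hAX => ?_⟩
    have h1 : ∑ k ∈ (Ioc A X).filter (fun k => k ^ 2 + 3 * k + 1 ≡ r [MOD D]),
        ((T c k / k : ℝ) : ℂ) * g (k ^ 2 + 3 * k + 1) = 0 := by
      refine Finset.sum_eq_zero fun k _ => ?_
      rw [h0, mul_zero]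
    rw [h1, norm_zero, add_zero]
    refine mul_nonneg hε.le (Real.log_nonneg ?_)
    have hA0 : (0 : ℝ) < A := by exact_mod_cast hA
    rw [le_div_iff₀ hA0, one_mul]
    exact_mod_cast hAX
  · refine ⟨∅, ?_, ?_⟩
    · unfold Lz
      simp
    · intro c _ D _ r
      have h1 : (fun X : ℕ => (∑ k ∈ (Icc 1 X).filter (fun k => k ^ 2 + 3 * k + 1 ≡ r [MOD D]),
          (T c k : ℂ) * g (k ^ 2 + 3 * k + 1)) / X) = fun _ => (0 : ℂ) := by
        funext X
        have h2 : ∑ k ∈ (Icc 1 X).filter (fun k => k ^ 2 + 3 * k + 1 ≡ r [MOD D]),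
            (T c k : ℂ) * g (k ^ 2 + 3 * k + 1) = 0 := by
          refine Finset.sum_eq_zero fun k _ => ?_
          rw [h0, mul_zero]
        rw [h2, zero_div]
      rw [h1]
      exact tendsto_const_nhds

open Classical in
theorem hull {q : ℕ} (hq : 0 < q)
    (hbb : ∀ G : ℕ → ℂ, (∀ a b : ℕ, 0 < a → 0 < b → a.Coprime b → G (a * b) = G a * G b) → (∀ n : ℕ, 0 < n → ‖G n‖ ≤ 1) →
      (∀ p : ℕ, p.Prime → (p % 5 = 1 ∨ p % 5 = 4) → G p ^ q = 1) →
      (∀ W : ℕ, 0 < W → ∀ ψ : DirichletCharacter ℂ W,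
        ¬ Summable (fun p : ℕ => if (p.Prime ∧ (p % 5 = 1 ∨ p % 5 = 4)) ∧ G p ≠ ψ p then 1 / (p : ℝ) else 0)) →
      Win Pool.Agent.Lib.MP_d57abb_nt.GA.TZ.tc G ∧ Sca Pool.Agent.Lib.MP_d57abb_nt.GA.TZ.tc G)
    {g : ℕ → ℂ} (hmul : ∀ a b : ℕ, 0 < a → 0 < b → a.Coprime b → g (a * b) = g a * g b)
    (hle : ∀ n : ℕ, 0 < n → ‖g n‖ ≤ 1)
    (hh : ∀ p : ℕ, p.Prime → (p % 5 = 1 ∨ p % 5 = 4) → g p ∈ convexHull ℝ {z : ℂ | z ^ q = 1})
    (hD : ∀ W : ℕ, 0 < W → ∀ ψ : DirichletCharacter ℂ W,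
      ¬ Summable (fun p : ℕ => if p.Prime ∧ (p % 5 = 1 ∨ p % 5 = 4) then
        (1 - (g p * (starRingEnd ℂ) (ψ p)).re) / (p : ℝ) else 0)) :
    Win Pool.Agent.Lib.MP_d57abb_nt.GA.TZ.tc g ∧ Sca Pool.Agent.Lib.MP_d57abb_nt.GA.TZ.tc g := by
  by_cases h0 : g 1 = 0
  · refine R14_zero fun n hn => ?_
    have h2 := hmul n 1 hn one_pos (Nat.coprime_one_right n)
    rw [mul_one, h0, mul_zero] at h2
    exact h2
  · have h1 : g 1 = 1 := by
      have h2 := hmul 1 1 one_pos one_pos (Nat.coprime_one_right 1)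
      rw [mul_one] at h2
      exact mul_eq_left₀ h0 |>.1 h2.symm
    have hex : ∀ p : ℕ, ∃ μ : Measure (Mu q), IsProbabilityMeasure μ ∧ (Sp p → ∫ w, (w : ℂ) ∂μ = g p) := by
      intro p
      by_cases hp : Sp p
      · obtain ⟨μ, h2, h3⟩ := exists_mu hq (hh p hp.1 hp.2)
        exact ⟨μ, h2, fun _ => h3⟩
      · exact ⟨Measure.dirac ⟨1, one_pow q⟩, inferInstance, fun h => absurd h hp⟩
    choose μ hμ1 hμ2 using hex
    have hnp := np_ae hq μ hμ2 hD
    have hae : ∀ᵐ x ∂(Measure.infinitePi μ), Win Pool.Agent.Lib.MP_d57abb_nt.GA.TZ.tc (Gr q g x) ∧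
        Sca Pool.Agent.Lib.MP_d57abb_nt.GA.TZ.tc (Gr q g x) := by
      filter_upwards [hnp] with x hx
      exact hbb (Gr q g x) (fun a b ha hb hab => Gr_mul g x ha hb hab) (fun n _ => Gr_le hq hle x n)
        (fun p hp h => by rw [Gr_prime g x ⟨hp, h⟩]; exact (x p).2) hx
    exact ⟨win_mean hq h1 hmul hle μ hμ2 (hae.mono fun x hx => hx.1),
      sca_mean hq h1 hmul hle μ hμ2 (hae.mono fun x hx => hx.2)⟩

end Pool.Agent.Lib.MP_d57abb_ntR
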