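import Pool.Agent.Lib.MP_d57abb_ntR.R1

/-!
# Leaf R2: the mean of the random function is `g`

`Gr q g x n = ∏ p ∈ n.primeFactors, F p (x p)` with `F p : Mu q → ℂ` measurable and bounded. The coordinates are independent
under `Measure.infinitePi μ`; hence the integral of the product is the product of the integrals. Shortest ways:
(i) `integral_restrict_infinitePi` (`Probability/ProductMeasure.lean`) with the finite set `n.primeFactors`, then
`MeasureTheory.integral_fintype_prod_eq_prod` for `Measure.pi`; or (ii) induction over the finite set with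
`ProbabilityTheory.iIndepFun_infinitePi` (`Probability/Independence/InfinitePi.lean`) and `IndepFun.integral_mul_eq_mul_integral`;
the integral over one coordinate is `∫ F p ∂(μ p)` by `Measure.infinitePi_map_eval` / `measurePreserving_eval_infinitePi`.
`∫ F p ∂(μ p)` is `g p = g (p ^ n.factorization p)` when `n.factorization p = 1` and `Sp p` (`hμ`), and the constant
`g (p ^ n.factorization p)` otherwise (probability measure). At last `g n = ∏ p ∈ n.primeFactors, g (p ^ n.factorization p)`:
`Nat.multiplicative_factorization'` (or induction `Nat.recOnPosPrimePosCoprime`) with `hmul` and `g 1 = 1`.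
-/

namespace Pool.Agent.Lib.MP_d57abb_ntR

open Finset Filter Topology MeasureTheory

private theorem R2_fac {g : ℕ → ℂ} (h1 : g 1 = 1)
    (hmul : ∀ a b : ℕ, 0 < a → 0 < b → a.Coprime b → g (a * b) = g a * g b) {n : ℕ} (hn : 0 < n) :
    ∏ p ∈ n.primeFactors, g (p ^ n.factorization p) = g n := by
  have h2 : ∀ a b : ℕ, a.Coprime b → g (a * b) = g a * g b := by
    intro a b hab
    rcases Nat.eq_zero_or_pos a with ha | ha
    · subst ha
      have hb : b = 1 := (Nat.coprime_zero_left b).1 hab
      rw [hb, h1, mul_one, mul_one]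
    · rcases Nat.eq_zero_or_pos b with hb | hb
      · subst hb
        have ha1 : a = 1 := (Nat.coprime_zero_right a).1 hab
        rw [ha1, h1, one_mul, one_mul]
      · exact hmul a b ha hb hab
  rw [Nat.multiplicative_factorization g h2 h1 hn.ne']
  rfl

open Classical in
private theorem R2_int {q : ℕ} (g : ℕ → ℂ) (μ : ℕ → Measure (Mu q)) [∀ p, IsProbabilityMeasure (μ p)] (n : ℕ) :
    ∫ x, Gr q g x n ∂(Measure.infinitePi μ) = ∏ p ∈ n.primeFactors,
      ∫ z : Mu q, (if n.factorization p = 1 ∧ Sp p then (z : ℂ) else g (p ^ n.factorization p)) ∂(μ p) := by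
  have hF : ∀ p : ℕ, Measurable (fun z : Mu q =>
      if n.factorization p = 1 ∧ Sp p then (z : ℂ) else g (p ^ n.factorization p)) := by
    intro p
    by_cases h : n.factorization p = 1 ∧ Sp p
    · simp only [if_pos h]
      exact measurable_subtype_coe
    · simp only [if_neg h]
      exact measurable_const
  obtain ⟨f, hf⟩ : ∃ f : ((p : n.primeFactors) → Mu q) → ℂ, f = fun y => ∏ p : n.primeFactors,
      (if n.factorization p.1 = 1 ∧ Sp p.1 then (y p : ℂ) else g (p.1 ^ n.factorization p.1)) := ⟨_, rfl⟩
  have h1 : ∀ x : ℕ → Mu q, Gr q g x n = f (n.primeFactors.restrict x) := by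
    intro x
    rw [hf]
    unfold Gr
    rw [← Finset.prod_coe_sort]
    rfl
  have h2 : Measurable f := by
    rw [hf]
    exact Finset.measurable_fun_prod _ fun p _ => (hF p.1).comp (measurable_pi_apply p)
  have h3 := integral_restrict_infinitePi (X := fun _ => Mu q) (μ := μ) (s := n.primeFactors) (f := f)
    h2.aestronglyMeasurable
  have h4 := integral_fintype_prod_eq_prod (ι := n.primeFactors) (𝕜 := ℂ) (E := fun _ => Mu q)
    (μ := fun p : n.primeFactors => μ p.1)
    (fun (p : n.primeFactors) (z : Mu q) =>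
      (if n.factorization p.1 = 1 ∧ Sp p.1 then (z : ℂ) else g (p.1 ^ n.factorization p.1)))
  have h5 : ∫ x, Gr q g x n ∂(Measure.infinitePi μ) = ∫ x, f (n.primeFactors.restrict x) ∂(Measure.infinitePi μ) :=
    integral_congr_ae (ae_of_all _ h1)
  rw [h5, h3, hf]
  refine h4.trans ?_
  exact Finset.prod_coe_sort n.primeFactors (fun p =>
    ∫ z : Mu q, (if n.factorization p = 1 ∧ Sp p then (z : ℂ) else g (p ^ n.factorization p)) ∂(μ p))

theorem Gr_int {q : ℕ} (hq : 0 < q) {g : ℕ → ℂ} (h1 : g 1 = 1)
    (hmul : ∀ a b : ℕ, 0 < a → 0 < b → a.Coprime b → g (a * b) = g a * g b)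
    (μ : ℕ → Measure (Mu q)) [∀ p, IsProbabilityMeasure (μ p)] (hμ : ∀ p : ℕ, Sp p → ∫ z, (z : ℂ) ∂(μ p) = g p)
    (n : ℕ) (hn : 0 < n) : ∫ x, Gr q g x n ∂(Measure.infinitePi μ) = g n := by
  rw [R2_int, ← R2_fac h1 hmul hn]
  refine Finset.prod_congr rfl fun p hp => ?_
  by_cases h : n.factorization p = 1 ∧ Sp p
  · simp only [if_pos h]
    rw [hμ p h.2, h.1, pow_one]
  · simp only [if_neg h]
    rw [integral_const, probReal_univ, one_smul]

end Pool.Agent.Lib.MP_d57abb_ntR
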