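import Pool.Agent.Lib.MP_d57abb_ntR.D0

/-!
# Leaf R3: a point of the convex hull is the mean of a probability measure on the roots of unity

The set `s = {w : ℂ | w ^ q = 1}` is finite (`0 < q`: roots of `X ^ q - 1`, e.g. `(Polynomial.nthRootsFinset q 1)` or
`Polynomial.mem_nthRoots`). `Set.Finite.convexHull_eq` (or `mem_convexHull_iff_exists_fintype`) gives weights `w y ≥ 0`, `y ∈ s`,
with sum `1` and `∑ w y • y = z`. Put `μ = ∑ y : Mu q, ENNReal.ofReal (w y) • Measure.dirac y` (`Fintype (Mu q)` from the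
finiteness). It is a probability measure (`ENNReal.ofReal_sum_of_nonneg`), and the integral of the coercion is the sum
(`integral_finset_sum_measure`, `integral_smul_measure`, `integral_dirac`; integrability: finite type or bounded).
-/

namespace Pool.Agent.Lib.MP_d57abb_ntR

open Finset Filter Topology MeasureTheory

theorem exists_mu {q : ℕ} (hq : 0 < q) {z : ℂ} (hz : z ∈ convexHull ℝ {w : ℂ | w ^ q = 1}) :
    ∃ μ : Measure (Mu q), IsProbabilityMeasure μ ∧ ∫ w, (w : ℂ) ∂μ = z := by
  have hfin : {w : ℂ | w ^ q = 1}.Finite := by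
    refine (Polynomial.nthRootsFinset q (1 : ℂ)).finite_toSet.subset ?_
    intro w hw
    exact Finset.mem_coe.2 ((Polynomial.mem_nthRootsFinset hq 1).2 hw)
  have hfi : Finite (Mu q) := hfin.to_subtype
  have ft : Fintype (Mu q) := Fintype.ofFinite _
  rw [hfin.convexHull_eq] at hz
  obtain ⟨w, hw0, hw1, hwz⟩ := hz
  rw [Finset.centerMass_eq_of_sum_1 _ _ hw1] at hwz
  have hmem : ∀ x : ℂ, x ∈ hfin.toFinset ↔ x ^ q = 1 := fun x => by
    rw [Set.Finite.mem_toFinset]
    exact Iff.rfl
  rw [Finset.sum_subtype _ hmem] at hw1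
  rw [Finset.sum_subtype _ hmem] at hwz
  have hw : ∀ y : Mu q, 0 ≤ w y := fun y => hw0 y y.2
  refine ⟨∑ y : Mu q, ENNReal.ofReal (w y) • Measure.dirac y, ⟨?_⟩, ?_⟩
  · rw [Measure.finsetSum_apply]
    have h1 : ∀ y ∈ (Finset.univ : Finset (Mu q)),
        (ENNReal.ofReal (w y) • Measure.dirac y) (Set.univ : Set (Mu q)) = ENNReal.ofReal (w y) := by
      intro y _
      rw [Measure.smul_apply, measure_univ, smul_eq_mul, mul_one]
    rw [Finset.sum_congr rfl h1, ← ENNReal.ofReal_sum_of_nonneg (fun y _ => hw y), hw1, ENNReal.ofReal_one]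
  · rw [integral_finsetSum_measure]
    · rw [← hwz]
      refine Finset.sum_congr rfl fun y _ => ?_
      rw [integral_smul_measure, integral_dirac, ENNReal.toReal_ofReal (hw y)]
      rfl
    · intro y _
      exact (Integrable.of_finite).smul_measure ENNReal.ofReal_ne_top

end Pool.Agent.Lib.MP_d57abb_ntR
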